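import Pool.Agent.TH693.MP.Step

/-!
# The basic gadget is hard without communication
-/

set_option autoImplicit false
set_option linter.unusedSectionVars false

open Finset

namespace Pool.Agent.TH693.MP

theorem card_fixed {I : Type} [Fintype I] [DecidableEq I] (T : Finset I) (c : I → Bool)
    (E : Finset (I → Bool)) (hE : ∀ y ∈ E, ∀ i ∈ T, y i = c i) :
    E.card * 2 ^ T.card ≤ Fintype.card (I → Bool) := by
  have h1 : E ⊆ Fintype.piFinset (fun i => if i ∈ T then {c i} else univ) := by
    intro y hy
    rw [Fintype.mem_piFinset]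
    intro i
    split_ifs with h
    · rw [hE y hy i h]; exact mem_singleton_self _
    · exact mem_univ _
  have h2 := card_le_card h1
  rw [Fintype.card_piFinset] at h2
  have h3 : ∏ i, (if i ∈ T then ({c i} : Finset Bool) else univ).card =
      2 ^ (Fintype.card I - T.card) := by
    have : ∀ i, (if i ∈ T then ({c i} : Finset Bool) else univ).card = if i ∈ T then 1 else 2 := by
      intro i
      split_ifs <;> simp
    simp only [this]
    rw [Finset.prod_ite]
    simp only [prod_const_one, prod_const, one_mul]
    congr 1
    have : (univ.filter fun i => i ∉ T) = univ \ T := by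
      ext i; simp
    rw [this, card_sdiff_of_subset (subset_univ _), card_univ]
  rw [h3] at h2
  have h4 : T.card ≤ Fintype.card I := card_le_univ T
  calc E.card * 2 ^ T.card ≤ 2 ^ (Fintype.card I - T.card) * 2 ^ T.card :=
        Nat.mul_le_mul_right _ h2
    _ = 2 ^ Fintype.card I := by rw [← pow_add]; congr 1; omega
    _ = Fintype.card (I → Bool) := by rw [Fintype.card_fun, Fintype.card_bool]

theorem isM_card_le {O : Finset (Bool × Bool)} (h : IsM O) : O.card ≤ 2 := by
  have : (O.image Prod.fst).card = O.card := by
    apply card_image_of_injOn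
    intro e he e' he' hh
    exact h.1 e he e' he' hh
  rw [← this]
  exact (card_le_univ _).trans (by simp)

open Classical in
/-- For a fixed output, few inputs are such that the output is successful. -/
theorem succ_base {I : Type} [Fintype I] (x : I → Unit) (O : I → Finset (Bool × Bool)) :
    ∃ k : ℕ, ((∃ y, Succ base I 1 x y O) → (Fintype.card I : ℝ) ≤ 2 * k) ∧
      (univ.filter fun y : I → Bool => Succ base I 1 x y O).card * 2 ^ k ≤
        Fintype.card (I → Bool) := by
  refine ⟨(univ.filter fun i => (O i).Nonempty).card, ?_, ?_⟩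
  · rintro ⟨y, h1, h2, h3⟩
    have h4 : (base.M : ℝ) - 1 = 1 := by
      simp only [base]; norm_num
    rw [h4, mul_one] at h3
    refine h3.trans ?_
    have h5 : ∀ i, ((O i).card : ℝ) ≤ if (O i).Nonempty then 2 else 0 := by
      intro i
      split_ifs with h
      · exact_mod_cast isM_card_le (h2 i)
      · rw [not_nonempty_iff_eq_empty] at h
        simp [h]
    refine (Finset.sum_le_sum fun i _ => h5 i).trans (le_of_eq ?_)
    rw [← Finset.sum_filter, sum_const, nsmul_eq_mul, mul_comm]
  · by_cases hO : ∀ i, (O i).Nonempty → ∃ e, e ∈ O i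
    · have : ∀ i, ∃ e : Bool × Bool, (O i).Nonempty → e ∈ O i := by
        intro i
        by_cases h : (O i).Nonempty
        · obtain ⟨e, he⟩ := h
          exact ⟨e, fun _ => he⟩
        · exact ⟨(true, true), fun h' => absurd h' h⟩
      choose c hc using this
      refine card_fixed _ (fun i => xor (c i).1 (c i).2) _ ?_
      intro y hy i hi
      obtain ⟨h1, -, -⟩ := (mem_filter.1 hy).2
      have h2 := (mem_filter.1 hi).2
      rcases h1 i _ (hc i h2) with h3 | h3
      · exact h3.elim
      · change (c i).2 = xor (c i).1 (y i) at h3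
        rw [h3]
        cases (c i).1 <;> cases (y i) <;> rfl
    · exact absurd (fun i h => h) hO

theorem hard_base {N : ℕ} {α β σ p : ℝ} (hN : 1 ≤ N) (hβ : 0 ≤ β)
    (hp : 2 * (β + 1 / N) / Real.log 2 ≤ p) : Hard base 0 N 1 α β σ p := by
  classical
  intro I A B M Out _ _ _ _ hI hM P Q hP hQ π ρ hπ hρ dec pr
  have hl2 : 0 < Real.log 2 := Real.log_pos (by norm_num)
  have hmP := mass_nonneg hP
  have hmQ := mass_nonneg hQ
  have hN0 : (0 : ℝ) < N := by exact_mod_cast hN
  have hIN : (N : ℝ) ≤ Fintype.card I := by exact_mod_cast hI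
  have hI0 : (0 : ℝ) < Fintype.card I := lt_of_lt_of_le hN0 hIN
  change A → I → Unit at π
  change B → I → Bool at ρ
  change Out → I → Finset (Bool × Bool) at dec
  have key : ∀ a, ∑ b, (if Succ base I 1 (π a) (ρ b) (dec (Proto.run 0 pr a b)) then P a * Q b
      else 0) ≤ P a * (p * mass Q) := by
    intro a
    obtain ⟨k, hk1, hk2⟩ := succ_base (π a) (dec (pr a))
    have e1 : ∑ b, (if Succ base I 1 (π a) (ρ b) (dec (Proto.run 0 pr a b)) then P a * Q b
      else 0) = P a * ∑ b, (if Succ base I 1 (π a) (ρ b) (dec (pr a)) then Q b else 0) := by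
      rw [Finset.mul_sum]
      refine Finset.sum_congr rfl fun b _ => ?_
      change (if Succ base I 1 (π a) (ρ b) (dec (pr a)) then P a * Q b else 0) = _
      split_ifs <;> simp
    rw [e1]
    refine mul_le_mul_of_nonneg_left ?_ (hP a)
    have e2 : ∑ b, (if Succ base I 1 (π a) (ρ b) (dec (pr a)) then Q b else 0) =
        ∑ y : I → Bool, (if Succ base I 1 (π a) y (dec (pr a)) then push ρ Q y else 0) := by
      have := sum_push ρ Q (fun y => if Succ base I 1 (π a) y (dec (pr a)) then (1 : ℝ) else 0)
      simp only [mul_ite, mul_one, mul_zero] at this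
      exact this.symm
    rw [e2]
    have h1 := dfc_event (push ρ Q) (push_nonneg hQ)
      (fun y : I → Bool => Succ base I 1 (π a) y (dec (pr a))) k hk2
    rw [mass_push] at h1
    by_cases hex : ∃ y, Succ base I 1 (π a) y (dec (pr a))
    · have hk := hk1 hex
      have hk0 : (0 : ℝ) < k := by linarith
      have h2 : (∑ y : I → Bool, (if Succ base I 1 (π a) y (dec (pr a)) then push ρ Q y else 0)) ≤
          (β * Fintype.card I * mass Q + mass Q) / (k * Real.log 2) := by
        rw [le_div_iff₀ (by positivity)]
        have h7 : dfc (α := I → Bool) (push ρ Q) ≤ β * Fintype.card I * mass Q := hρ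
        exact h1.trans (by linarith)
      refine h2.trans ?_
      refine le_trans ?_ (mul_le_mul_of_nonneg_right hp hmQ)
      rw [div_le_iff₀ (by positivity)]
      have h3 : (β * Fintype.card I + 1) ≤ 2 * (β + 1 / N) * k := by
        have h4 : β * Fintype.card I ≤ β * (2 * k) := mul_le_mul_of_nonneg_left hk hβ
        have h5 : 1 ≤ 1 / (N : ℝ) * (2 * k) := by
          rw [one_div, ← div_eq_inv_mul, le_div_iff₀ hN0]
          linarith
        nlinarith
      have h6 : 2 * (β + 1 / N) / Real.log 2 * mass Q * (k * Real.log 2) =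
          2 * (β + 1 / N) * k * mass Q := by
        field_simp
      rw [h6]
      have := mul_le_mul_of_nonneg_right h3 hmQ
      linarith
    · push Not at hex
      have : ∀ y : I → Bool, (if Succ base I 1 (π a) y (dec (pr a)) then push ρ Q y else 0) = 0 :=
        fun y => if_neg (hex y)
      rw [Finset.sum_eq_zero fun y _ => this y]
      have hp0 : 0 ≤ p := le_trans (by positivity) hp
      positivity
  calc _ ≤ ∑ a, P a * (p * mass Q) := Finset.sum_le_sum fun a _ => key a
    _ = p * (mass P * mass Q) := by
        rw [← Finset.sum_mul]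
        change mass P * (p * mass Q) = _
        ring

end Pool.Agent.TH693.MP
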