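import Mathlib

/-!
# Entropy deficiency of finite (unnormalised) distributions
-/

set_option autoImplicit false
set_option linter.unusedSectionVars false

open Finset

namespace Pool.Agent.TH693.MP

/-- The total mass of a weight function. -/
noncomputable def mass {α : Type*} [Fintype α] (w : α → ℝ) : ℝ := ∑ a, w a

open Classical in
/-- The image of a weight function under a map. -/
noncomputable def push {α β : Type*} [Fintype α] (f : α → β) (w : α → ℝ) : β → ℝ :=
  fun b => ∑ a, if f a = b then w a else 0

/-- The entropy deficiency of a weight function: the mass times the relative entropy between the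
normalised weight function and the uniform distribution. -/
noncomputable def dfc {α : Type*} [Fintype α] (w : α → ℝ) : ℝ :=
  ∑ a, w a * (Real.log (w a) + Real.log (Fintype.card α) - Real.log (mass w))

section basic
variable {α β γ : Type*} [Fintype α] [Fintype β] [Fintype γ]

theorem mass_nonneg {w : α → ℝ} (h : ∀ a, 0 ≤ w a) : 0 ≤ mass w := Finset.sum_nonneg fun a _ => h a

theorem le_mass {w : α → ℝ} (h : ∀ a, 0 ≤ w a) (a : α) : w a ≤ mass w :=
  Finset.single_le_sum (fun a _ => h a) (Finset.mem_univ a)

theorem push_nonneg {f : α → β} {w : α → ℝ} (h : ∀ a, 0 ≤ w a) (b : β) : 0 ≤ push f w b := by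
  classical
  unfold push
  refine Finset.sum_nonneg fun a _ => ?_
  split_ifs
  · exact h a
  · exact le_rfl

theorem mass_push (f : α → β) (w : α → ℝ) : mass (push f w) = mass w := by
  classical
  unfold mass push
  rw [Finset.sum_comm]
  refine Finset.sum_congr rfl fun a _ => ?_
  simp

theorem sum_push (f : α → β) (w : α → ℝ) (g : β → ℝ) :
    ∑ b, push f w b * g b = ∑ a, w a * g (f a) := by
  classical
  unfold push
  simp only [Finset.sum_mul]
  rw [Finset.sum_comm]
  refine Finset.sum_congr rfl fun a _ => ?_
  simp [ite_mul]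

theorem push_push (f : α → β) (g : β → γ) (w : α → ℝ) :
    push g (push f w) = push (g ∘ f) w := by
  classical
  funext c
  have := sum_push f w (fun b => if g b = c then (1 : ℝ) else 0)
  unfold push at this ⊢
  simp only [mul_ite, mul_one, mul_zero, Function.comp] at this ⊢
  rw [← this]

theorem push_congr {f g : α → β} {w : α → ℝ} (h : ∀ a, w a ≠ 0 → f a = g a) :
    push f w = push g w := by
  classical
  funext b
  unfold push
  refine Finset.sum_congr rfl fun a _ => ?_
  by_cases hw : w a = 0
  · simp [hw]
  · rw [h a hw]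

/-- the elementary inequality behind everything: `x log x - x log y ≥ x - y`. -/
theorem log_ineq {x y : ℝ} (hx : 0 ≤ x) (hy : 0 ≤ y) (h : 0 < x → 0 < y) :
    x - y ≤ x * (Real.log x - Real.log y) := by
  rcases hx.eq_or_lt with h0 | h0
  · rw [← h0]; simp [hy]
  · have hy' := h h0
    have h1 := Real.log_le_sub_one_of_pos (div_pos hy' h0)
    rw [Real.log_div hy'.ne' h0.ne'] at h1
    have h2 : x * (Real.log y - Real.log x) ≤ x * (y / x - 1) :=
      mul_le_mul_of_nonneg_left h1 hx
    have h3 : x * (y / x - 1) = y - x := by field_simp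
    rw [h3] at h2
    linarith

/-- The general form of Gibbs' inequality that is used below: for nonnegative `w` and any `f`. -/
theorem gibbs {w : α → ℝ} (h : ∀ a, 0 ≤ w a) (f : α → ℝ) :
    ∑ a, w a * f a ≤ dfc w - mass w + mass w / Fintype.card α * ∑ a, Real.exp (f a) := by
  rcases isEmpty_or_nonempty α with he | he
  · simp [dfc, mass]
  · have hc : (0 : ℝ) < Fintype.card α := by exact_mod_cast Fintype.card_pos
    rcases (mass_nonneg h).eq_or_lt with h0 | h0
    · have hw : ∀ a, w a = 0 := by
        intro a
        exact le_antisymm (by rw [h0]; exact le_mass h a) (h a)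
      simp [dfc, hw, ← h0]
    · have key : ∀ a, w a * f a ≤ w a * (Real.log (w a) + Real.log (Fintype.card α) -
          Real.log (mass w)) - w a + mass w / Fintype.card α * Real.exp (f a) := by
        intro a
        have hy : 0 < mass w / Fintype.card α * Real.exp (f a) := by positivity
        have := log_ineq (h a) hy.le (fun _ => hy)
        rw [Real.log_mul (by positivity) (by positivity), Real.log_div h0.ne' hc.ne',
          Real.log_exp] at this
        nlinarith
      calc ∑ a, w a * f a ≤ ∑ a, (w a * (Real.log (w a) + Real.log (Fintype.card α) -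
          Real.log (mass w)) - w a + mass w / Fintype.card α * Real.exp (f a)) :=
            Finset.sum_le_sum fun a _ => key a
        _ = _ := by
            rw [Finset.sum_add_distrib, Finset.sum_sub_distrib, ← Finset.mul_sum]
            rfl

theorem dfc_nonneg {w : α → ℝ} (h : ∀ a, 0 ≤ w a) : 0 ≤ dfc w := by
  have := gibbs h (fun _ => 0)
  simp only [mul_zero, Finset.sum_const_zero, Real.exp_zero, Finset.sum_const, Finset.card_univ,
    nsmul_eq_mul, mul_one] at this
  rcases isEmpty_or_nonempty α with he | he
  · simp [dfc]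
  · have hc : (0 : ℝ) < Fintype.card α := by exact_mod_cast Fintype.card_pos
    rw [div_mul_cancel₀ _ hc.ne'] at this
    linarith

theorem dfc_le {w : α → ℝ} (h : ∀ a, 0 ≤ w a) : dfc w ≤ mass w * Real.log (Fintype.card α) := by
  unfold dfc
  calc ∑ a, w a * (Real.log (w a) + Real.log (Fintype.card α) - Real.log (mass w))
      ≤ ∑ a, w a * Real.log (Fintype.card α) := by
        refine Finset.sum_le_sum fun a _ => ?_
        rcases (h a).eq_or_lt with h0 | h0
        · rw [← h0]; simp
        · refine mul_le_mul_of_nonneg_left ?_ (h a)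
          have := Real.log_le_log h0 (le_mass h a)
          linarith
    _ = _ := by rw [← Finset.sum_mul]; rfl

theorem dfc_zero {w : α → ℝ} (h : ∀ a, w a = 0) : dfc w = 0 := by
  unfold dfc
  refine Finset.sum_eq_zero fun a _ => ?_
  rw [h a, zero_mul]

theorem dfc_uniform [Nonempty α] : dfc (fun _ : α => (1 : ℝ)) = 0 := by
  unfold dfc mass
  simp

theorem dfc_equiv (e : α ≃ β) (w : β → ℝ) : dfc (fun a => w (e a)) = dfc w := by
  unfold dfc mass
  rw [Fintype.card_congr e, e.sum_comp w]
  exact e.sum_comp (fun b => w b * (Real.log (w b) + Real.log (Fintype.card β) -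
    Real.log (∑ b, w b)))

theorem push_equiv (e : α ≃ β) (w : α → ℝ) : push e w = fun b => w (e.symm b) := by
  classical
  funext b
  unfold push
  have : ∀ a, (e a = b) ↔ (a = e.symm b) := fun a => by
    rw [Equiv.eq_symm_apply]
  simp [this]

theorem dfc_push_equiv (e : α ≃ β) (w : α → ℝ) : dfc (push e w) = dfc w := by
  rw [push_equiv]
  exact dfc_equiv e.symm w

/-- chain rule -/
theorem dfc_prod (w : α × β → ℝ) :
    dfc w = dfc (fun a => ∑ b, w (a, b)) + ∑ a, dfc (fun b => w (a, b)) := by
  unfold dfc mass
  rw [Fintype.sum_prod_type, ← Finset.sum_add_distrib]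
  refine Finset.sum_congr rfl fun a _ => ?_
  rw [Finset.sum_mul, ← Finset.sum_add_distrib]
  refine Finset.sum_congr rfl fun b _ => ?_
  have ha : (Fintype.card α : ℝ) ≠ 0 := by
    have : Nonempty α := ⟨a⟩
    exact_mod_cast Fintype.card_ne_zero
  have hb : (Fintype.card β : ℝ) ≠ 0 := by
    have : Nonempty β := ⟨b⟩
    exact_mod_cast Fintype.card_ne_zero
  rw [Fintype.card_prod, Nat.cast_mul, Real.log_mul ha hb, ← Fintype.sum_prod_type']
  ring

/-- subadditivity -/
theorem dfc_sum_le {κ : Type*} [Fintype κ] (w : κ → α → ℝ) (h : ∀ k a, 0 ≤ w k a) :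
    dfc (fun a => ∑ k, w k a) ≤ ∑ k, dfc (w k) := by
  have hm : mass (fun a => ∑ k, w k a) = ∑ k, mass (w k) := by
    unfold mass; exact Finset.sum_comm
  rcases (mass_nonneg (w := fun a => ∑ k, w k a)
    (fun a => Finset.sum_nonneg fun k _ => h k a)).eq_or_lt with h0 | h0
  · have hz : ∀ a, ∑ k, w k a = 0 := by
      intro a
      have h1 := le_mass (w := fun a => ∑ k, w k a)
        (fun a => Finset.sum_nonneg fun k _ => h k a) a
      rw [← h0] at h1
      exact le_antisymm h1 (Finset.sum_nonneg fun k _ => h k a)
    rw [dfc_zero hz]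
    exact Finset.sum_nonneg fun k _ => dfc_nonneg (h k)
  · set W := mass (fun a => ∑ k, w k a) with hW
    have key : ∀ k a, w k a - mass (w k) * (∑ k, w k a) / W ≤
        w k a * (Real.log (w k a) + Real.log (Fintype.card α) - Real.log (mass (w k))) -
        w k a * (Real.log (∑ k, w k a) + Real.log (Fintype.card α) - Real.log W) := by
      intro k a
      have hs : w k a ≤ ∑ k, w k a := Finset.single_le_sum (f := fun k => w k a)
        (fun k _ => h k a) (Finset.mem_univ k)
      have hs' := le_mass (h k) a
      have hy : 0 ≤ mass (w k) * (∑ k, w k a) / W := by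
        have := mass_nonneg (h k)
        have : 0 ≤ ∑ k, w k a := (h k a).trans hs
        positivity
      rcases (h k a).eq_or_lt with h1 | h1
      · rw [← h1]; simp only [zero_sub, zero_mul, sub_zero]; linarith
      · have h2 : 0 < mass (w k) := lt_of_lt_of_le h1 hs'
        have h3 : 0 < ∑ k, w k a := lt_of_lt_of_le h1 hs
        have := log_ineq (h k a) hy (fun _ => by positivity)
        rw [Real.log_div (by positivity) h0.ne', Real.log_mul h2.ne' h3.ne'] at this
        linarith
    have h1 : ∑ k, ∑ a, (w k a - mass (w k) * (∑ k, w k a) / W) = 0 := by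
      have : ∑ k, ∑ a, (w k a - mass (w k) * (∑ k, w k a) / W) =
          ∑ k, (mass (w k) - mass (w k) * W / W) := by
        refine Finset.sum_congr rfl fun k _ => ?_
        rw [Finset.sum_sub_distrib]
        congr 1
        have e : mass (w k) * W / W = ∑ a, mass (w k) * (∑ k, w k a) / W := by
          rw [← Finset.sum_div, ← Finset.mul_sum]
          rfl
        exact e.symm
      rw [this]
      refine Finset.sum_eq_zero fun k _ => ?_
      rw [mul_div_assoc, div_self h0.ne', mul_one, sub_self]
    have h2 : ∑ k, dfc (w k) - dfc (fun a => ∑ k, w k a) =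
        ∑ k, ∑ a, (w k a * (Real.log (w k a) + Real.log (Fintype.card α) - Real.log (mass (w k))) -
        w k a * (Real.log (∑ k, w k a) + Real.log (Fintype.card α) - Real.log W)) := by
      simp only [Finset.sum_sub_distrib]
      congr 1
      rw [Finset.sum_comm]
      unfold dfc
      refine Finset.sum_congr rfl fun a _ => ?_
      rw [Finset.sum_mul]
    have h3 : (0 : ℝ) ≤ ∑ k, dfc (w k) - dfc (fun a => ∑ k, w k a) := by
      rw [h2, ← h1]
      exact Finset.sum_le_sum fun k _ => Finset.sum_le_sum fun a _ => key k a
    linarith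

/-- a message reveals at most the logarithm of the number of messages -/
theorem dfc_msg {κ : Type*} [Fintype κ] (w : κ → α → ℝ) (h : ∀ k a, 0 ≤ w k a) :
    ∑ k, dfc (w k) ≤ dfc (fun a => ∑ k, w k a) +
      mass (fun a => ∑ k, w k a) * Real.log (Fintype.card κ) := by
  have hm : mass (fun a => ∑ k, w k a) = ∑ k, mass (w k) := by
    unfold mass; exact Finset.sum_comm
  have hκ := dfc_nonneg (w := fun k => mass (w k)) (fun k => mass_nonneg (h k))
  have e1 : dfc (fun k => mass (w k)) = ∑ k, mass (w k) * (Real.log (mass (w k)) +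
      Real.log (Fintype.card κ) - Real.log (mass (fun a => ∑ k, w k a))) := by
    unfold dfc; rw [hm]; rfl
  have h2 : ∑ k, dfc (w k) - dfc (fun a => ∑ k, w k a) ≤
      ∑ k, mass (w k) * (Real.log (mass (fun a => ∑ k, w k a)) - Real.log (mass (w k))) := by
    have : ∑ k, dfc (w k) - dfc (fun a => ∑ k, w k a) =
        ∑ k, ∑ a, (w k a * (Real.log (w k a) + Real.log (Fintype.card α) - Real.log (mass (w k))) -
        w k a * (Real.log (∑ k, w k a) + Real.log (Fintype.card α) -
          Real.log (mass (fun a => ∑ k, w k a)))) := by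
      simp only [Finset.sum_sub_distrib]
      congr 1
      rw [Finset.sum_comm]
      unfold dfc
      refine Finset.sum_congr rfl fun a _ => ?_
      rw [Finset.sum_mul]
    rw [this]
    refine Finset.sum_le_sum fun k _ => ?_
    conv_rhs => rw [mass, Finset.sum_mul]
    refine Finset.sum_le_sum fun a _ => ?_
    have hs : w k a ≤ ∑ k, w k a := Finset.single_le_sum (f := fun k => w k a)
      (fun k _ => h k a) (Finset.mem_univ k)
    rcases (h k a).eq_or_lt with h1 | h1
    · rw [← h1]; simp
    · have := Real.log_le_log h1 hs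
      rw [← mul_sub]
      refine mul_le_mul_of_nonneg_left ?_ (h k a)
      have e : ∑ a, w k a = mass (w k) := rfl
      rw [e]
      linarith
  rw [e1] at hκ
  have h3 : ∑ k, mass (w k) * (Real.log (mass (w k)) +
      Real.log (Fintype.card κ) - Real.log (mass (fun a => ∑ k, w k a))) =
      (∑ k, mass (w k)) * Real.log (Fintype.card κ) -
      ∑ k, mass (w k) * (Real.log (mass (fun a => ∑ k, w k a)) - Real.log (mass (w k))) := by
    rw [Finset.sum_mul, ← Finset.sum_sub_distrib]
    refine Finset.sum_congr rfl fun k _ => ?_
    ring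
  rw [h3, ← hm] at hκ
  linarith

end basic

end Pool.Agent.TH693.MP
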