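import Pool.Agent.TH693.MP.Ent

/-!
# Entropy deficiency of projections
-/

set_option autoImplicit false
set_option linter.unusedSectionVars false

open Finset

namespace Pool.Agent.TH693.MP

section
variable {α β γ α' β' : Type*} [Fintype α] [Fintype β] [Fintype γ] [Fintype α'] [Fintype β']

theorem push_comp_equiv (e : α ≃ β) (f : β → γ) (w : β → ℝ) :
    push (fun a => f (e a)) (fun a => w (e a)) = push f w := by
  classical
  funext c
  unfold push
  exact e.sum_comp (fun b => if f b = c then w b else 0)

theorem push_id (w : α → ℝ) : push (fun a => a) w = w := by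
  classical
  funext c
  unfold push
  simp

theorem push_fst (f : α → γ) (w : α × β → ℝ) :
    push (fun p : α × β => f p.1) w = push f (fun a => ∑ b, w (a, b)) := by
  classical
  funext c
  unfold push
  rw [Fintype.sum_prod_type]
  refine Finset.sum_congr rfl fun a _ => ?_
  by_cases h : f a = c <;> simp [h]

theorem push_snd (f : β → γ) (w : α × β → ℝ) :
    push (fun p : α × β => f p.2) w = push f (fun b => ∑ a, w (a, b)) := by
  classical
  funext c
  unfold push
  rw [Fintype.sum_prod_type_right]
  refine Finset.sum_congr rfl fun a _ => ?_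
  by_cases h : f a = c <;> simp [h]

theorem dfc_push_prod (g₁ : α → α') (g₂ : β → β') (w : α × β → ℝ) (h : ∀ a, 0 ≤ w a) :
    dfc (push (fun p : α × β => (g₁ p.1, g₂ p.2)) w) ≤
      dfc (push g₁ (fun a => ∑ b, w (a, b))) + ∑ a, dfc (push g₂ (fun b => w (a, b))) := by
  classical
  rw [dfc_prod]
  have e1 : (fun a' => ∑ b', push (fun p : α × β => (g₁ p.1, g₂ p.2)) w (a', b')) =
      push g₁ (fun a => ∑ b, w (a, b)) := by
    funext a'
    unfold push
    rw [Finset.sum_comm, Fintype.sum_prod_type]
    refine Finset.sum_congr rfl fun a _ => ?_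
    by_cases h : g₁ a = a' <;> simp [h]
  rw [e1]
  gcongr
  have e2 : ∀ a', (fun b' => push (fun p : α × β => (g₁ p.1, g₂ p.2)) w (a', b')) =
      fun b' => ∑ a, (if g₁ a = a' then push g₂ (fun b => w (a, b)) b' else 0) := by
    intro a'
    funext b'
    unfold push
    rw [Fintype.sum_prod_type]
    refine Finset.sum_congr rfl fun a _ => ?_
    by_cases h : g₁ a = a' <;> simp [h]
  calc ∑ a', dfc (fun b' => push (fun p : α × β => (g₁ p.1, g₂ p.2)) w (a', b'))
      ≤ ∑ a', ∑ a, dfc (fun b' => if g₁ a = a' then push g₂ (fun b => w (a, b)) b' else 0) := by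
        refine Finset.sum_le_sum fun a' _ => ?_
        rw [e2]
        refine dfc_sum_le _ ?_
        intro a b'
        split_ifs
        · exact push_nonneg (fun b => h _) _
        · exact le_rfl
    _ = ∑ a, dfc (push g₂ (fun b => w (a, b))) := by
        rw [Finset.sum_comm]
        refine Finset.sum_congr rfl fun a _ => ?_
        rw [Finset.sum_eq_single (g₁ a)]
        · simp
        · intro a' _ ha'
          refine dfc_zero fun b' => ?_
          rw [if_neg (Ne.symm ha')]
        · simp

end

/-- superadditivity over coordinates -/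
theorem dfc_coord {T B : Type} [Fintype T] [DecidableEq T] [Fintype B]
    (w : (T → B) → ℝ) (h : ∀ z, 0 ≤ w z) :
    ∑ j, dfc (push (fun z => z j) w) ≤ dfc w := by
  classical
  revert w h
  have key : ∀ (T : Type) [Fintype T], ∀ (_ : DecidableEq T) (w : (T → B) → ℝ), (∀ z, 0 ≤ w z) →
      ∑ j, dfc (push (fun z => z j) w) ≤ dfc w := by
    refine @Fintype.induction_empty_option (fun T _ => ∀ (_ : DecidableEq T) (w : (T → B) → ℝ),
      (∀ z, 0 ≤ w z) → ∑ j, dfc (push (fun z => z j) w) ≤ dfc w) ?_ ?_ ?_
    · intro α β hβ e ih
      intro hdec w hw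
      have : DecidableEq α := Classical.decEq _
      let E : (α → B) ≃ (β → B) := e.arrowCongr (Equiv.refl B)
      let _ : Fintype α := Fintype.ofEquiv β e.symm
      have h1 := ih inferInstance (fun z => w (E z)) (fun z => hw _)
      rw [dfc_equiv E w] at h1
      refine le_trans (le_of_eq ?_) h1
      rw [← e.sum_comp]
      refine Finset.sum_congr rfl fun j _ => ?_
      rw [← push_comp_equiv E]
      congr 1
      refine push_congr ?_
      intro z _
      simp [E, Equiv.arrowCongr]
    · intro hdec w hw
      simp only [Finset.univ_eq_empty, Finset.sum_empty]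
      exact dfc_nonneg hw
    · intro α hα ih hdec w hw
      have : DecidableEq α := Classical.decEq _
      let e : (Option α → B) ≃ B × (α → B) := Equiv.piOptionEquivProd
      let w' : B × (α → B) → ℝ := fun p => w (e.symm p)
      have hw' : ∀ p, 0 ≤ w' p := fun p => hw _
      have e0 : dfc w = dfc w' := (dfc_equiv e.symm w).symm
      rw [e0, dfc_prod w', Fintype.sum_option]
      have h1 : push (fun z => z none) w = fun b => ∑ z, w' (b, z) := by
        rw [← push_comp_equiv e.symm, ← push_id (fun b => ∑ z, w' (b, z)), ← push_fst]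
        refine push_congr ?_
        intro p _
        rfl
      have h2 : ∀ j, push (fun z : Option α → B => z (some j)) w =
          push (fun z => z j) (fun z => ∑ b, w' (b, z)) := by
        intro j
        rw [← push_comp_equiv e.symm, ← push_snd]
        refine push_congr ?_
        intro p _
        rfl
      rw [h1]
      gcongr
      simp only [h2]
      refine (ih inferInstance (fun z => ∑ b, w' (b, z)) ?_).trans ?_
      · intro z
        exact Finset.sum_nonneg fun b _ => hw' _
      · exact dfc_sum_le (fun b z => w' (b, z)) (fun b z => hw' _)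
  exact key T inferInstance

theorem dfc_proj {T B : Type} [Fintype T] [DecidableEq T] [Fintype B] (I : Type) [Fintype I]
    [DecidableEq I] (w : (I → T → B) → ℝ) (h : ∀ z, 0 ≤ w z) :
    ∃ d : I → T → ℝ, (∀ i j, 0 ≤ d i j) ∧ (∀ i j, d i j ≤ mass w * Real.log (Fintype.card B)) ∧
      ∑ i, ∑ j, d i j ≤ dfc w ∧
      ∀ J : I → T, dfc (push (fun z i => z i (J i)) w) ≤ ∑ i, d i (J i) := by
  classical
  revert w h
  have key : ∀ (I : Type) [Fintype I], ∀ (_ : DecidableEq I) (w : (I → T → B) → ℝ),
      (∀ z, 0 ≤ w z) →
      ∃ d : I → T → ℝ, (∀ i j, 0 ≤ d i j) ∧ (∀ i j, d i j ≤ mass w * Real.log (Fintype.card B)) ∧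
      ∑ i, ∑ j, d i j ≤ dfc w ∧
      ∀ J : I → T, dfc (push (fun z i => z i (J i)) w) ≤ ∑ i, d i (J i) := by
    refine @Fintype.induction_empty_option (fun I _ => ∀ (_ : DecidableEq I)
      (w : (I → T → B) → ℝ), (∀ z, 0 ≤ w z) →
      ∃ d : I → T → ℝ, (∀ i j, 0 ≤ d i j) ∧ (∀ i j, d i j ≤ mass w * Real.log (Fintype.card B)) ∧
      ∑ i, ∑ j, d i j ≤ dfc w ∧
      ∀ J : I → T, dfc (push (fun z i => z i (J i)) w) ≤ ∑ i, d i (J i)) ?_ ?_ ?_
    · intro α β hβ e ih
      intro hdec w hw
      have : DecidableEq α := Classical.decEq _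
      let E : (α → T → B) ≃ (β → T → B) := e.arrowCongr (Equiv.refl _)
      let E' : (α → B) ≃ (β → B) := e.arrowCongr (Equiv.refl _)
      let _ : Fintype α := Fintype.ofEquiv β e.symm
      obtain ⟨d, h1, h2, h3, h4⟩ := ih inferInstance (fun z => w (E z)) (fun z => hw _)
      have hm : mass (fun z => w (E z)) = mass w := E.sum_comp w
      refine ⟨fun b j => d (e.symm b) j, fun b j => h1 _ _, fun b j => ?_, ?_, ?_⟩
      · rw [← hm]; exact h2 _ _
      · rw [e.symm.sum_comp (fun a => ∑ j, d a j)]
        rw [dfc_equiv E w] at h3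
        exact h3
      · intro J
        have := h4 (fun a => J (e a))
        refine le_trans (le_of_eq ?_) (this.trans (le_of_eq ?_))
        · rw [← dfc_push_equiv E' (push _ _), push_push, ← push_comp_equiv E]
          congr 1
          refine push_congr ?_
          intro z _
          funext b
          simp [E, E', Equiv.arrowCongr, Function.comp]
        · rw [← e.sum_comp (fun b => d (e.symm b) (J b))]
          refine Finset.sum_congr rfl fun a _ => ?_
          simp
    · intro hdec w hw
      refine ⟨fun i _ => i.elim, fun i => i.elim, fun i => i.elim, ?_, ?_⟩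
      · simp only [Finset.univ_eq_empty, Finset.sum_empty]
        exact dfc_nonneg hw
      · intro J
        simp only [Finset.univ_eq_empty, Finset.sum_empty]
        refine (dfc_le (push_nonneg hw)).trans ?_
        simp
    · intro α hα ih hdec w hw
      have : DecidableEq α := Classical.decEq _
      let e : (Option α → T → B) ≃ (T → B) × (α → T → B) := Equiv.piOptionEquivProd
      let e' : (Option α → B) ≃ B × (α → B) := Equiv.piOptionEquivProd
      let w' : (T → B) × (α → T → B) → ℝ := fun p => w (e.symm p)
      have hw' : ∀ p, 0 ≤ w' p := fun p => hw _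
      have e0 : dfc w = dfc w' := (dfc_equiv e.symm w).symm
      have hm : mass w = ∑ z, mass (fun z' => w' (z, z')) := by
        have : mass w = mass w' := (e.symm.sum_comp w).symm
        rw [this]
        unfold mass
        rw [Fintype.sum_prod_type]
      choose d h1 h2 h3 h4 using fun z => ih inferInstance (fun z' => w' (z, z')) (fun z' => hw' _)
      let w1 : (T → B) → ℝ := fun z => ∑ z', w' (z, z')
      have hw1 : ∀ z, 0 ≤ w1 z := fun z => Finset.sum_nonneg fun z' _ => hw' _
      have hm1 : mass w1 = mass w := by rw [hm]; rfl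
      refine ⟨fun o j => match o with
        | none => dfc (push (fun z => z j) w1)
        | some i => ∑ z, d z i j, ?_, ?_, ?_, ?_⟩
      · rintro (_ | i) j
        · exact dfc_nonneg (push_nonneg hw1)
        · exact Finset.sum_nonneg fun z _ => h1 z i j
      · rintro (_ | i) j
        · refine (dfc_le (push_nonneg hw1)).trans ?_
          rw [mass_push, hm1]
        · refine (Finset.sum_le_sum fun z _ => h2 z i j).trans ?_
          rw [hm, Finset.sum_mul]
      · rw [Fintype.sum_option, e0, dfc_prod w']
        refine add_le_add (dfc_coord w1 hw1) ?_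
        calc ∑ i, ∑ j, ∑ z, d z i j = ∑ z, ∑ i, ∑ j, d z i j := by
              have h5 : ∀ i, ∑ j, ∑ z, d z i j = ∑ z, ∑ j, d z i j := fun i => Finset.sum_comm
              simp only [h5]
              exact Finset.sum_comm
          _ ≤ _ := Finset.sum_le_sum fun z _ => h3 z
      · intro J
        rw [Fintype.sum_option]
        have e1 : dfc (push (fun (z : Option α → T → B) i => z i (J i)) w) =
            dfc (push (fun p : (T → B) × (α → T → B) =>
              (p.1 (J none), fun i => p.2 i (J (some i)))) w') := by
          rw [← dfc_push_equiv e', push_push, ← push_comp_equiv e.symm]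
          congr 1
        rw [e1]
        refine (dfc_push_prod (fun z : T → B => z (J none))
          (fun (z : α → T → B) i => z i (J (some i))) w' hw').trans ?_
        refine add_le_add le_rfl ?_
        rw [Finset.sum_comm]
        exact Finset.sum_le_sum fun z _ => h4 z (fun i => J (some i))
  exact key I inferInstance

theorem exp_le_of_half {x : ℝ} (h0 : 0 ≤ x) (h1 : x ≤ 1 / 2) : Real.exp x ≤ 1 + 2 * x := by
  have h2 := Real.add_one_le_exp (-x)
  have h3 : Real.exp x * Real.exp (-x) = 1 := by rw [← Real.exp_add]; simp
  have h4 : 0 < Real.exp x := Real.exp_pos x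
  have h5 : Real.exp x * (1 - x) ≤ 1 := by
    rw [← h3]
    exact mul_le_mul_of_nonneg_left (by linarith) h4.le
  by_contra hcon
  push Not at hcon
  have : (1 + 2 * x) * (1 - x) < 1 := by
    refine lt_of_lt_of_le ?_ h5
    exact mul_lt_mul_of_pos_right hcon (by linarith)
  nlinarith

/-- the average of a bounded function under a nearly uniform distribution -/
theorem avg_bound {T : Type} [Fintype T] (ν d : T → ℝ) (hν : ∀ j, 0 ≤ ν j) (L : ℝ) (hL : 0 < L)
    (h0 : ∀ j, 0 ≤ d j) (h1 : ∀ j, d j ≤ L) :
    ∑ j, ν j * d j ≤ 2 * L * dfc ν + 2 * (mass ν / Fintype.card T) * ∑ j, d j := by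
  rcases isEmpty_or_nonempty T with he | he
  · simp [dfc]
  have hc : (0 : ℝ) < Fintype.card T := by exact_mod_cast Fintype.card_pos
  have hm := mass_nonneg hν
  have h := gibbs hν (fun j => d j / (2 * L))
  have h2 : ∑ j, Real.exp (d j / (2 * L)) ≤ ∑ j, (1 + 2 * (d j / (2 * L))) := by
    refine Finset.sum_le_sum fun j _ => exp_le_of_half (by have := h0 j; positivity) ?_
    rw [div_le_iff₀ (by positivity)]
    have := h1 j
    linarith
  have h3 : ∑ j, (1 + 2 * (d j / (2 * L))) = Fintype.card T + (∑ j, d j) / L := by
    rw [Finset.sum_add_distrib, Finset.sum_div]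
    simp only [Finset.sum_const, Finset.card_univ, nsmul_eq_mul, mul_one]
    congr 1
    refine Finset.sum_congr rfl fun j _ => ?_
    field_simp
  have h4 : ∑ j, ν j * (d j / (2 * L)) = (∑ j, ν j * d j) / (2 * L) := by
    rw [Finset.sum_div]
    refine Finset.sum_congr rfl fun j _ => ?_
    ring
  rw [h4] at h
  have h5 : (∑ j, ν j * d j) / (2 * L) ≤ dfc ν + mass ν / Fintype.card T * ((∑ j, d j) / L) := by
    refine h.trans ?_
    have h6 : mass ν / Fintype.card T * ∑ j, Real.exp (d j / (2 * L)) ≤
        mass ν / Fintype.card T * (Fintype.card T + (∑ j, d j) / L) := by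
      refine mul_le_mul_of_nonneg_left (h2.trans h3.le) (by positivity)
    have h7 : mass ν / Fintype.card T * (Fintype.card T + (∑ j, d j) / L) =
        mass ν + mass ν / Fintype.card T * ((∑ j, d j) / L) := by
      field_simp
    linarith
  rw [div_le_iff₀ (by positivity)] at h5
  refine h5.trans (le_of_eq ?_)
  field_simp

theorem dfc_avg {I T B : Type} [Fintype I] [DecidableEq I] [Fintype T] [DecidableEq T] [Fintype B]
    (w : (I → T → B) → ℝ) (hw : ∀ z, 0 ≤ w z) (ν : (I → T) → ℝ) (hν : ∀ J, 0 ≤ ν J) :
    ∑ J, ν J * dfc (push (fun z i => z i (J i)) w) ≤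
      2 * (mass w * (Real.log (Fintype.card B) + 1)) * dfc ν +
        2 * (mass ν / Fintype.card T) * dfc w := by
  classical
  obtain ⟨d, h0, h1, h2, h3⟩ := dfc_proj I w hw
  have hmw := mass_nonneg hw
  have hmν := mass_nonneg hν
  have hlog : 0 ≤ Real.log (Fintype.card B) := Real.log_natCast_nonneg _
  have hcT : (0 : ℝ) ≤ Fintype.card T := Nat.cast_nonneg _
  rcases hmw.eq_or_lt with hW | hW
  · have hd : ∀ i j, d i j = 0 := fun i j =>
      le_antisymm ((h1 i j).trans (by rw [← hW]; simp)) (h0 i j)
    have : ∑ J, ν J * dfc (push (fun z i => z i (J i)) w) ≤ 0 := by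
      refine Finset.sum_nonpos fun J _ => ?_
      refine mul_nonpos_of_nonneg_of_nonpos (hν J) ((h3 J).trans ?_)
      simp [hd]
    refine this.trans ?_
    have := dfc_nonneg hν
    have := dfc_nonneg hw
    positivity
  · have hL : 0 < mass w * (Real.log (Fintype.card B) + 1) := by positivity
    calc ∑ J, ν J * dfc (push (fun z i => z i (J i)) w)
        ≤ ∑ J, ν J * ∑ i, d i (J i) :=
          Finset.sum_le_sum fun J _ => mul_le_mul_of_nonneg_left (h3 J) (hν J)
      _ = ∑ i, ∑ j, push (fun J => J i) ν j * d i j := by
          simp only [Finset.mul_sum]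
          rw [Finset.sum_comm]
          refine Finset.sum_congr rfl fun i _ => ?_
          rw [sum_push]
      _ ≤ ∑ i, (2 * (mass w * (Real.log (Fintype.card B) + 1)) * dfc (push (fun J => J i) ν) +
            2 * (mass ν / Fintype.card T) * ∑ j, d i j) := by
          refine Finset.sum_le_sum fun i _ => ?_
          have := avg_bound (push (fun J : I → T => J i) ν) (d i) (push_nonneg hν)
            (mass w * (Real.log (Fintype.card B) + 1)) hL (h0 i) (fun j => (h1 i j).trans (by
              nlinarith))
          rw [mass_push] at this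
          exact this
      _ ≤ _ := by
          rw [Finset.sum_add_distrib, ← Finset.mul_sum, ← Finset.mul_sum]
          refine add_le_add ?_ ?_
          · exact mul_le_mul_of_nonneg_left (dfc_coord ν hν) (by positivity)
          · exact mul_le_mul_of_nonneg_left h2 (by positivity)

open Classical in
/-- an unlikely event remains unlikely if the deficiency is small -/
theorem dfc_event {α : Type} [Fintype α] [Nonempty α] (w : α → ℝ) (hw : ∀ a, 0 ≤ w a)
    (E : α → Prop) (k : ℕ) (hE : (univ.filter E).card * 2 ^ k ≤ Fintype.card α) :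
    (∑ a, if E a then w a else 0) * (k * Real.log 2) ≤ dfc w + mass w := by
  have hc : (0 : ℝ) < Fintype.card α := by exact_mod_cast Fintype.card_pos
  have hm := mass_nonneg hw
  have h := gibbs hw (fun a => if E a then k * Real.log 2 else 0)
  have h1 : ∑ a, w a * (if E a then k * Real.log 2 else 0) =
      (∑ a, if E a then w a else 0) * (k * Real.log 2) := by
    rw [Finset.sum_mul]
    refine Finset.sum_congr rfl fun a _ => ?_
    split_ifs <;> simp
  have h2 : ∑ a, Real.exp (if E a then k * Real.log 2 else 0) ≤ Fintype.card α + Fintype.card α := by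
    have : ∀ a, Real.exp (if E a then k * Real.log 2 else 0) ≤ (if E a then (2 : ℝ) ^ k else 0) + 1 := by
      intro a
      split_ifs
      · rw [mul_comm, Real.exp_mul, Real.exp_log (by norm_num), Real.rpow_natCast]
        linarith
      · simp
    refine (Finset.sum_le_sum fun a _ => this a).trans ?_
    rw [Finset.sum_add_distrib]
    refine add_le_add ?_ ?_
    · rw [← Finset.sum_filter, Finset.sum_const, nsmul_eq_mul]
      exact_mod_cast hE
    · simp
  rw [h1] at h
  refine h.trans ?_
  have h3 : mass w / Fintype.card α * ∑ a, Real.exp (if E a then k * Real.log 2 else 0) ≤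
      mass w / Fintype.card α * (Fintype.card α + Fintype.card α) :=
    mul_le_mul_of_nonneg_left h2 (by positivity)
  have h4 : mass w / Fintype.card α * (Fintype.card α + Fintype.card α) = 2 * mass w := by
    field_simp
    ring
  linarith

end Pool.Agent.TH693.MP
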