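import Pool.Agent.TH693.MP.Ent2

/-!
# Gadgets, protocols and the embedding of small gadgets into a larger one
-/

set_option autoImplicit false
set_option linter.unusedSectionVars false

open Finset

namespace Pool.Agent.TH693.MP

/-- A set of pairs in which no two pairs share a left or a right element. -/
def IsM {U V : Type} (O : Finset (U × V)) : Prop :=
  (∀ e ∈ O, ∀ e' ∈ O, e.1 = e'.1 → e = e') ∧ (∀ e ∈ O, ∀ e' ∈ O, e.2 = e'.2 → e = e')

/-- A family of bipartite graphs (with sides `U` and `V`), each given by an input `x : X` of one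
player and an input `y : Y` of the other player. -/
structure Gadget where
  X : Type
  Y : Type
  U : Type
  V : Type
  [fX : Fintype X]
  [fY : Fintype Y]
  [fU : Fintype U]
  [fV : Fintype V]
  [nX : Nonempty X]
  [nY : Nonempty Y]
  EX : X → U → V → Prop
  EY : Y → U → V → Prop
  M : ℕ
  disj : ∀ x y u v, EX x u v → ¬ EY y u v
  full : ∀ x y, ∃ O : Finset (U × V), IsM O ∧ (∀ e ∈ O, EX x e.1 e.2 ∨ EY y e.1 e.2) ∧ O.card = M

attribute [instance] Gadget.fX Gadget.fY Gadget.fU Gadget.fV Gadget.nX Gadget.nY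

/-- Protocols with `r` messages (from a set `M`). The first message is sent by the player who
holds `A`, then the players alternate; at the end the player whose turn it is gives the output. -/
def Proto (M Out : Type) : ℕ → Type → Type → Type
  | 0, A, _ => A → Out
  | r + 1, A, B => (A → M) × (M → Proto M Out r B A)

/-- The output of a protocol. -/
def Proto.run {M Out : Type} : (r : ℕ) → {A B : Type} → Proto M Out r A B → A → B → Out
  | 0, _, _, p, a, _ => p a
  | r + 1, _, _, p, a, b => Proto.run r (p.2 (p.1 a)) b a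

/-- The output `O` consists of matchings of the given graphs, and at most `θ` edges are missing
on average. -/
def Succ (G : Gadget) (I : Type) [Fintype I] (θ : ℝ) (x : I → G.X) (y : I → G.Y)
    (O : I → Finset (G.U × G.V)) : Prop :=
  (∀ i, ∀ e ∈ O i, G.EX (x i) e.1 e.2 ∨ G.EY (y i) e.1 e.2) ∧ (∀ i, IsM (O i)) ∧
    (Fintype.card I : ℝ) * (G.M - θ) ≤ ∑ i, ((O i).card : ℝ)

open Classical in
/-- No protocol with `r` messages succeeds on many independent copies of the gadget, for nearly
uniform inputs. -/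
def Hard (G : Gadget) (r N : ℕ) (θ α β σ p : ℝ) : Prop :=
  ∀ (I A B M Out : Type) [Fintype I] [Fintype A] [Fintype B] [Fintype M],
    N ≤ Fintype.card I → Real.log (Fintype.card M) ≤ σ * Fintype.card I →
    ∀ (P : A → ℝ) (Q : B → ℝ), (∀ a, 0 ≤ P a) → (∀ b, 0 ≤ Q b) →
    ∀ (π : A → I → G.X) (ρ : B → I → G.Y),
      dfc (push π P) ≤ α * Fintype.card I * mass P →
      dfc (push ρ Q) ≤ β * Fintype.card I * mass Q →
      ∀ (dec : Out → I → Finset (G.U × G.V)) (pr : Proto M Out r A B),
        ∑ a, ∑ b, (if Succ G I θ (π a) (ρ b) (dec (pr.run r a b)) then P a * Q b else 0) ≤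
          p * (mass P * mass Q)

/-- The basic gadget: one player holds nothing, the other one a bit; the graph is one of the two
perfect matchings between two vertices and two vertices. -/
def base : Gadget where
  X := Unit
  Y := Bool
  U := Bool
  V := Bool
  EX := fun _ _ _ => False
  EY := fun y u v => v = xor u y
  M := 2
  disj := fun _ _ _ _ h => h.elim
  full := fun _ y => by
    refine ⟨Finset.univ.image (fun u => (u, xor u y)), ?_, ?_, ?_⟩
    · constructor
      · intro e he e' he' h
        simp only [mem_image, mem_univ, true_and] at he he'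
        obtain ⟨u, rfl⟩ := he
        obtain ⟨u', rfl⟩ := he'
        simp only at h
        rw [h]
      · intro e he e' he' h
        simp only [mem_image, mem_univ, true_and] at he he'
        obtain ⟨u, rfl⟩ := he
        obtain ⟨u', rfl⟩ := he'
        simp only at h
        have : u = u' := by
          revert h
          cases u <;> cases u' <;> cases y <;> simp
        rw [this]
    · intro e he
      simp only [mem_image, mem_univ, true_and] at he
      obtain ⟨u, rfl⟩ := he
      exact Or.inr rfl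
    · rw [card_image_of_injective]
      · simp
      · intro a b h
        exact (Prod.mk.inj h).1

/-- Data of a bipartite graph whose edges are partitioned into induced matchings. -/
structure RS where
  V : Type
  T : Type
  E : Type
  [fV : Fintype V]
  [fT : Fintype T]
  [fE : Fintype E]
  [nT : Nonempty T]
  [dV : DecidableEq V]
  [dT : DecidableEq T]
  [dE : DecidableEq E]
  a : T → E → V
  b : T → E → V
  a_inj : ∀ j, Function.Injective (a j)
  b_inj : ∀ j, Function.Injective (b j)
  ind : ∀ j j' e e' e'', a j' e'' = a j e → b j' e'' = b j e' → j' = j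

attribute [instance] RS.fV RS.fT RS.fE RS.nT RS.dV RS.dT RS.dE

namespace RS
variable (R : RS)

theorem ind' {j j' : R.T} {e e' e'' : R.E} (h : R.a j' e'' = R.a j e) (h' : R.b j' e'' = R.b j e') :
    j' = j ∧ e'' = e ∧ e'' = e' := by
  have := R.ind j j' e e' e'' h h'
  subst this
  exact ⟨rfl, R.a_inj _ h, R.b_inj _ h'⟩

end RS

section lift
variable (R : RS) (G : Gadget)

/-- left vertices of the lifted gadget -/
abbrev LU := (R.V × G.U) ⊕ (R.V × G.V)

/-- right vertices of the lifted gadget -/
abbrev LV := (R.V × G.V) ⊕ (R.V × G.U)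

/-- edges of the player who holds parts of gadgets for all the induced matchings -/
inductive LEX (x : R.T → R.E → G.Y) : LU R G → LV R G → Prop
  | mk (j : R.T) (e : R.E) (u : G.U) (v : G.V) (h : G.EY (x j e) u v) :
      LEX x (Sum.inl (R.a j e, u)) (Sum.inl (R.b j e, v))

/-- edges of the player who holds the index of the special induced matching -/
inductive LEY (y : R.T × (R.E → G.X)) : LU R G → LV R G → Prop
  | blk (e : R.E) (u : G.U) (v : G.V) (h : G.EX (y.2 e) u v) :
      LEY y (Sum.inl (R.a y.1 e, u)) (Sum.inl (R.b y.1 e, v))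
  | left (p : R.V) (u : G.U) (h : ∀ e, R.a y.1 e ≠ p) :
      LEY y (Sum.inl (p, u)) (Sum.inr (p, u))
  | right (q : R.V) (v : G.V) (h : ∀ e, R.b y.1 e ≠ q) :
      LEY y (Sum.inr (q, v)) (Sum.inl (q, v))

/-- number of edges outside the special matching -/
def outside : ℕ :=
  (Fintype.card R.V - Fintype.card R.E) * Fintype.card G.U +
    (Fintype.card R.V - Fintype.card R.E) * Fintype.card G.V

variable {R G}

theorem lex_blk {x : R.T → R.E → G.Y} {j : R.T} {e e' : R.E} {u : G.U} {v : G.V}
    (h : LEX R G x (Sum.inl (R.a j e, u)) (Sum.inl (R.b j e', v))) :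
    e = e' ∧ G.EY (x j e) u v := by
  generalize hp : (Sum.inl (R.a j e, u) : LU R G) = p at h
  generalize hq : (Sum.inl (R.b j e', v) : LV R G) = q at h
  cases h with
  | mk j' e'' u' v' h =>
    simp only [Sum.inl.injEq, Prod.mk.injEq] at hp hq
    obtain ⟨h1, rfl⟩ := hp
    obtain ⟨h2, rfl⟩ := hq
    obtain ⟨rfl, rfl, rfl⟩ := R.ind' h1.symm h2.symm
    exact ⟨rfl, h⟩

theorem ley_blk {y : R.T × (R.E → G.X)} {e e' : R.E} {u : G.U} {v : G.V}
    (h : LEY R G y (Sum.inl (R.a y.1 e, u)) (Sum.inl (R.b y.1 e', v))) :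
    e = e' ∧ G.EX (y.2 e) u v := by
  generalize hp : (Sum.inl (R.a y.1 e, u) : LU R G) = p at h
  generalize hq : (Sum.inl (R.b y.1 e', v) : LV R G) = q at h
  cases h with
  | blk e'' u' v' h =>
    simp only [Sum.inl.injEq, Prod.mk.injEq] at hp hq
    obtain ⟨h1, rfl⟩ := hp
    obtain ⟨h2, rfl⟩ := hq
    have h3 := R.a_inj _ h1
    have h4 := R.b_inj _ h2
    subst h3
    subst h4
    exact ⟨rfl, h⟩
  | left p u' h => simp at hq
  | right q v' h => simp at hp

/-- the block of the edge `e` of the special matching -/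
def blockEmb (R : RS) (G : Gadget) (j : R.T) (e : R.E) : G.U × G.V ↪ LU R G × LV R G where
  toFun p := (Sum.inl (R.a j e, p.1), Sum.inl (R.b j e, p.2))
  inj' := by
    rintro ⟨u, v⟩ ⟨u', v'⟩ h
    simp only [Prod.mk.injEq, Sum.inl.injEq, true_and] at h
    exact Prod.ext h.1 h.2

theorem blockEmb_apply (j : R.T) (e : R.E) (p : G.U × G.V) :
    blockEmb R G j e p = (Sum.inl (R.a j e, p.1), Sum.inl (R.b j e, p.2)) := rfl

open Classical in
/-- the part of `O` in the block of the edge `e` of the matching `j` -/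
noncomputable def restr (R : RS) (G : Gadget) (j : R.T) (e : R.E) (O : Finset (LU R G × LV R G)) :
    Finset (G.U × G.V) :=
  univ.filter fun p => blockEmb R G j e p ∈ O

theorem mem_restr {j : R.T} {e : R.E} {O : Finset (LU R G × LV R G)} {p : G.U × G.V} :
    p ∈ restr R G j e O ↔ blockEmb R G j e p ∈ O := by
  classical
  unfold restr
  simp

theorem restr_isM {j : R.T} {e : R.E} {O : Finset (LU R G × LV R G)} (hO : IsM O) :
    IsM (restr R G j e O) := by
  constructor
  · intro p hp q hq h
    rw [mem_restr] at hp hq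
    refine (blockEmb R G j e).injective (hO.1 _ hp _ hq ?_)
    rw [blockEmb_apply, blockEmb_apply, h]
  · intro p hp q hq h
    rw [mem_restr] at hp hq
    refine (blockEmb R G j e).injective (hO.2 _ hp _ hq ?_)
    rw [blockEmb_apply, blockEmb_apply, h]

theorem outside_card_left (j : R.T) {γ : Type} [Fintype γ] [DecidableEq γ] :
    ((univ.filter fun p : R.V => ∀ e, R.a j e ≠ p) ×ˢ (univ : Finset γ)).card =
      (Fintype.card R.V - Fintype.card R.E) * Fintype.card γ := by
  rw [card_product, card_univ]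
  congr 1
  have : (univ.filter fun p : R.V => ∀ e, R.a j e ≠ p) = univ \ (univ.image (R.a j)) := by
    ext p
    simp
  rw [this, card_sdiff_of_subset (subset_univ _), card_image_of_injective _ (R.a_inj j), card_univ,
    card_univ]

theorem outside_card_right (j : R.T) {γ : Type} [Fintype γ] [DecidableEq γ] :
    ((univ.filter fun p : R.V => ∀ e, R.b j e ≠ p) ×ˢ (univ : Finset γ)).card =
      (Fintype.card R.V - Fintype.card R.E) * Fintype.card γ := by
  rw [card_product, card_univ]
  congr 1
  have : (univ.filter fun p : R.V => ∀ e, R.b j e ≠ p) = univ \ (univ.image (R.b j)) := by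
    ext p
    simp
  rw [this, card_sdiff_of_subset (subset_univ _), card_image_of_injective _ (R.b_inj j), card_univ,
    card_univ]

/-- any matching is made of the parts in the blocks of the special matching and few other edges -/
theorem card_le_blocks (x : R.T → R.E → G.Y) (y : R.T × (R.E → G.X))
    (O : Finset (LU R G × LV R G)) (hO : IsM O)
    (hE : ∀ e ∈ O, LEX R G x e.1 e.2 ∨ LEY R G y e.1 e.2) :
    O.card ≤ outside R G + ∑ e, (restr R G y.1 e O).card := by
  classical
  set B := univ.biUnion fun e => (restr R G y.1 e O).map (blockEmb R G y.1 e) with hB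
  set C1 := O.filter fun e => ∃ p : R.V × G.U, (∀ e', R.a y.1 e' ≠ p.1) ∧ e.1 = Sum.inl p with hC1
  set C2 := O.filter fun e => ∃ p : R.V × G.V, (∀ e', R.b y.1 e' ≠ p.1) ∧ e.2 = Sum.inl p with hC2
  have hcover : O ⊆ B ∪ (C1 ∪ C2) := by
    intro o ho
    rw [mem_union, mem_union]
    by_contra hcon
    push Not at hcon
    obtain ⟨hb, hc1, hc2⟩ := hcon
    obtain ⟨l, r⟩ := o
    rcases hE _ ho with h | h
    · simp only at h
      cases h with
      | mk j e u v h =>
        have h1 : ∃ e', R.a y.1 e' = R.a j e := by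
          by_contra hc
          push Not at hc
          exact hc1 (mem_filter.2 ⟨ho, ⟨(R.a j e, u), hc, rfl⟩⟩)
        have h2 : ∃ e', R.b y.1 e' = R.b j e := by
          by_contra hc
          push Not at hc
          exact hc2 (mem_filter.2 ⟨ho, ⟨(R.b j e, v), hc, rfl⟩⟩)
        obtain ⟨e1, h1⟩ := h1
        obtain ⟨e2, h2⟩ := h2
        obtain ⟨rfl, rfl, rfl⟩ := R.ind' h1.symm h2.symm
        apply hb
        rw [hB, mem_biUnion]
        refine ⟨e, mem_univ _, mem_map.2 ⟨(u, v), ?_, rfl⟩⟩
        rw [mem_restr]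
        exact ho
    · simp only at h
      cases h with
      | blk e u v h =>
        apply hb
        rw [hB, mem_biUnion]
        refine ⟨e, mem_univ _, mem_map.2 ⟨(u, v), ?_, rfl⟩⟩
        rw [mem_restr]
        exact ho
      | left p u h => exact hc1 (mem_filter.2 ⟨ho, ⟨(p, u), h, rfl⟩⟩)
      | right q v h => exact hc2 (mem_filter.2 ⟨ho, ⟨(q, v), h, rfl⟩⟩)
  have hBc : B.card ≤ ∑ e, (restr R G y.1 e O).card := by
    refine card_biUnion_le.trans ?_
    refine Finset.sum_le_sum fun e _ => ?_
    rw [card_map]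
  have hC1c : C1.card ≤ (Fintype.card R.V - Fintype.card R.E) * Fintype.card G.U := by
    rw [← outside_card_left (R := R) y.1 (γ := G.U)]
    have : (C1.image Prod.fst).card = C1.card := by
      apply card_image_of_injOn
      intro e he e' he' h
      exact hO.1 e (mem_filter.1 he).1 e' (mem_filter.1 he').1 h
    rw [← this]
    refine (card_le_card (t := ((univ.filter fun p : R.V => ∀ e, R.a y.1 e ≠ p) ×ˢ
      (univ : Finset G.U)).image Sum.inl) ?_).trans card_image_le
    intro l hl
    rw [mem_image] at hl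
    obtain ⟨e, he, rfl⟩ := hl
    obtain ⟨-, p, hp, hp'⟩ := mem_filter.1 he
    rw [hp']
    refine mem_image_of_mem _ ?_
    rw [mem_product]
    exact ⟨mem_filter.2 ⟨mem_univ _, hp⟩, mem_univ _⟩
  have hC2c : C2.card ≤ (Fintype.card R.V - Fintype.card R.E) * Fintype.card G.V := by
    rw [← outside_card_right (R := R) y.1 (γ := G.V)]
    have : (C2.image Prod.snd).card = C2.card := by
      apply card_image_of_injOn
      intro e he e' he' h
      exact hO.2 e (mem_filter.1 he).1 e' (mem_filter.1 he').1 h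
    rw [← this]
    refine (card_le_card (t := ((univ.filter fun p : R.V => ∀ e, R.b y.1 e ≠ p) ×ˢ
      (univ : Finset G.V)).image Sum.inl) ?_).trans card_image_le
    intro l hl
    rw [mem_image] at hl
    obtain ⟨e, he, rfl⟩ := hl
    obtain ⟨-, p, hp, hp'⟩ := mem_filter.1 he
    rw [hp']
    refine mem_image_of_mem _ ?_
    rw [mem_product]
    exact ⟨mem_filter.2 ⟨mem_univ _, hp⟩, mem_univ _⟩
  calc O.card ≤ (B ∪ (C1 ∪ C2)).card := card_le_card hcover
    _ ≤ B.card + (C1.card + C2.card) :=
        (card_union_le _ _).trans (Nat.add_le_add_left (card_union_le _ _) _)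
    _ ≤ _ := by unfold outside; omega

theorem lift_full (x : R.T → R.E → G.Y) (y : R.T × (R.E → G.X)) :
    ∃ O : Finset (LU R G × LV R G), IsM O ∧ (∀ e ∈ O, LEX R G x e.1 e.2 ∨ LEY R G y e.1 e.2) ∧
      O.card = outside R G + Fintype.card R.E * G.M := by
  classical
  choose F hF1 hF2 hF3 using fun e => G.full (y.2 e) (x y.1 e)
  set B := univ.biUnion fun e => (F e).map (blockEmb R G y.1 e) with hB
  let f1 : R.V × G.U ↪ LU R G × LV R G :=
    ⟨fun p => (Sum.inl p, Sum.inr p), fun p q h => by simpa using h⟩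
  let f2 : R.V × G.V ↪ LU R G × LV R G :=
    ⟨fun p => (Sum.inr p, Sum.inl p), fun p q h => by simpa using h⟩
  set C1 := ((univ.filter fun p : R.V => ∀ e, R.a y.1 e ≠ p) ×ˢ (univ : Finset G.U)).map f1 with hC1
  set C2 := ((univ.filter fun p : R.V => ∀ e, R.b y.1 e ≠ p) ×ˢ (univ : Finset G.V)).map f2 with hC2
  have mB : ∀ o, o ∈ B ↔ ∃ e u v, (u, v) ∈ F e ∧
      o = (Sum.inl (R.a y.1 e, u), Sum.inl (R.b y.1 e, v)) := by
    intro o
    rw [hB, mem_biUnion]
    constructor
    · rintro ⟨e, -, h⟩
      obtain ⟨⟨u, v⟩, h1, h2⟩ := mem_map.1 h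
      exact ⟨e, u, v, h1, h2.symm⟩
    · rintro ⟨e, u, v, h1, h2⟩
      exact ⟨e, mem_univ _, mem_map.2 ⟨(u, v), h1, h2.symm⟩⟩
  have mC1 : ∀ o, o ∈ C1 ↔ ∃ (p : R.V) (u : G.U), (∀ e, R.a y.1 e ≠ p) ∧
      o = (Sum.inl (p, u), Sum.inr (p, u)) := by
    intro o
    rw [hC1, mem_map]
    constructor
    · rintro ⟨⟨p, u⟩, h1, h2⟩
      rw [mem_product] at h1
      exact ⟨p, u, (mem_filter.1 h1.1).2, h2.symm⟩
    · rintro ⟨p, u, h1, h2⟩
      exact ⟨(p, u), mem_product.2 ⟨mem_filter.2 ⟨mem_univ _, h1⟩, mem_univ _⟩, h2.symm⟩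
  have mC2 : ∀ o, o ∈ C2 ↔ ∃ (p : R.V) (u : G.V), (∀ e, R.b y.1 e ≠ p) ∧
      o = (Sum.inr (p, u), Sum.inl (p, u)) := by
    intro o
    rw [hC2, mem_map]
    constructor
    · rintro ⟨⟨p, u⟩, h1, h2⟩
      rw [mem_product] at h1
      exact ⟨p, u, (mem_filter.1 h1.1).2, h2.symm⟩
    · rintro ⟨p, u, h1, h2⟩
      exact ⟨(p, u), mem_product.2 ⟨mem_filter.2 ⟨mem_univ _, h1⟩, mem_univ _⟩, h2.symm⟩
  refine ⟨B ∪ (C1 ∪ C2), ⟨?_, ?_⟩, ?_, ?_⟩
  · intro o ho o' ho' h
    rw [mem_union, mem_union, mB, mC1, mC2] at ho ho'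
    rcases ho with ⟨e, u, v, h1, rfl⟩ | ⟨p, u, h1, rfl⟩ | ⟨p, u, h1, rfl⟩ <;>
    rcases ho' with ⟨e', u', v', h1', rfl⟩ | ⟨p', u', h1', rfl⟩ | ⟨p', u', h1', rfl⟩ <;>
    simp only [Sum.inl.injEq, Sum.inr.injEq, Prod.mk.injEq, reduceCtorEq] at h ⊢
    · obtain ⟨h2, rfl⟩ := h
      have h3 := R.a_inj _ h2
      subst h3
      have h4 := (hF1 e).1 _ h1 _ h1' rfl
      simp only [Prod.mk.injEq, true_and] at h4
      subst h4
      simp
    · exact absurd h.1 (h1' e)
    · exact absurd h.1.symm (h1 e')
    · obtain ⟨rfl, rfl⟩ := h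
      simp
    · obtain ⟨rfl, rfl⟩ := h
      simp
  · intro o ho o' ho' h
    rw [mem_union, mem_union, mB, mC1, mC2] at ho ho'
    rcases ho with ⟨e, u, v, h1, rfl⟩ | ⟨p, u, h1, rfl⟩ | ⟨p, u, h1, rfl⟩ <;>
    rcases ho' with ⟨e', u', v', h1', rfl⟩ | ⟨p', u', h1', rfl⟩ | ⟨p', u', h1', rfl⟩ <;>
    simp only [Sum.inl.injEq, Sum.inr.injEq, Prod.mk.injEq, reduceCtorEq] at h ⊢
    · obtain ⟨h2, rfl⟩ := h
      have h3 := R.b_inj _ h2
      subst h3
      have h4 := (hF1 e).2 _ h1 _ h1' rfl
      simp only [Prod.mk.injEq, and_true] at h4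
      subst h4
      simp
    · exact absurd h.1 (h1' e)
    · obtain ⟨rfl, rfl⟩ := h
      simp
    · exact absurd h.1.symm (h1 e')
    · obtain ⟨rfl, rfl⟩ := h
      simp
  · intro o ho
    rw [mem_union, mem_union, mB, mC1, mC2] at ho
    rcases ho with ⟨e, u, v, h1, rfl⟩ | ⟨p, u, h1, rfl⟩ | ⟨p, u, h1, rfl⟩
    · rcases hF2 e _ h1 with h | h
      · exact Or.inr (LEY.blk e u v h)
      · exact Or.inl (LEX.mk y.1 e u v h)
    · exact Or.inr (LEY.left p u h1)
    · exact Or.inr (LEY.right p u h1)
  · have d1 : Disjoint B (C1 ∪ C2) := by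
      rw [disjoint_left]
      intro o ho ho'
      rw [mem_union, mC1, mC2] at ho'
      rw [mB] at ho
      obtain ⟨e, u, v, -, rfl⟩ := ho
      rcases ho' with ⟨p, u', -, h⟩ | ⟨p, u', -, h⟩ <;> simp at h
    have d2 : Disjoint C1 C2 := by
      rw [disjoint_left]
      intro o ho ho'
      rw [mC1] at ho
      rw [mC2] at ho'
      obtain ⟨p, u, -, rfl⟩ := ho
      obtain ⟨p', u', -, h⟩ := ho'
      simp at h
    rw [card_union_of_disjoint d1, card_union_of_disjoint d2, hC1, hC2, card_map, card_map,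
      outside_card_left, outside_card_right, hB, card_biUnion]
    · simp only [card_map, hF3, sum_const, card_univ, smul_eq_mul]
      unfold outside
      ring
    · intro e _ e' _ hee
      rw [Function.onFun, disjoint_left]
      intro o ho ho'
      obtain ⟨⟨u, v⟩, h1, rfl⟩ := mem_map.1 ho
      obtain ⟨⟨u', v'⟩, h1', h2⟩ := mem_map.1 ho'
      simp only [blockEmb_apply, Prod.mk.injEq, Sum.inl.injEq] at h2
      exact hee (R.a_inj _ h2.1.1).symm

variable (R G)

/-- The lifted gadget: each edge of the graph `R` is replaced by a copy of the gadget `G` (with the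
roles of the players exchanged); one player holds a part for every edge of `R`, the other one holds
the index of the special induced matching and parts for its edges only. -/
def lift : Gadget where
  X := R.T → R.E → G.Y
  Y := R.T × (R.E → G.X)
  U := LU R G
  V := LV R G
  EX := LEX R G
  EY := LEY R G
  M := outside R G + Fintype.card R.E * G.M
  disj := by
    intro x y u v h1 h2
    cases h1 with
    | mk j e u v h =>
      generalize hp : (Sum.inl (R.a j e, u) : LU R G) = p at h2
      generalize hq : (Sum.inl (R.b j e, v) : LV R G) = q at h2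
      cases h2 with
      | blk e'' u' v' h' =>
        simp only [Sum.inl.injEq, Prod.mk.injEq] at hp hq
        obtain ⟨h3, rfl⟩ := hp
        obtain ⟨h4, rfl⟩ := hq
        obtain ⟨rfl, rfl, -⟩ := R.ind' h3 h4
        exact G.disj _ _ _ _ h' h
      | left p u' h => simp at hq
      | right q v' h => simp at hp
  full := lift_full

/-- success for the lifted gadget implies success for the gadgets in the special matchings -/
theorem succ_restrict {I : Type} [Fintype I] {θ θ' : ℝ} (hθ : θ ≤ θ' * Fintype.card R.E)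
    (x : I → R.T → R.E → G.Y) (y : I → R.T × (R.E → G.X)) (O : I → Finset (LU R G × LV R G))
    (h : Succ (lift R G) I θ x y O) :
    Succ G (I × R.E) θ' (fun p => (y p.1).2 p.2) (fun p => x p.1 (y p.1).1 p.2)
      (fun p => restr R G (y p.1).1 p.2 (O p.1)) := by
  obtain ⟨h1, h2, h3⟩ := h
  refine ⟨?_, ?_, ?_⟩
  · rintro ⟨i, e⟩ ⟨u, v⟩ he
    rw [mem_restr] at he
    rcases h1 i _ he with h | h
    · exact Or.inr (lex_blk h).2
    · exact Or.inl (ley_blk h).2
  · rintro ⟨i, e⟩
    exact restr_isM (h2 i)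
  · have h4 : ∀ i, ((O i).card : ℝ) ≤ (outside R G : ℝ) +
        ∑ e, ((restr R G (y i).1 e (O i)).card : ℝ) := by
      intro i
      have := card_le_blocks (x i) (y i) (O i) (h2 i) (h1 i)
      exact_mod_cast this
    have h5 : ∑ i, ((O i).card : ℝ) ≤ (Fintype.card I : ℝ) * outside R G +
        ∑ i, ∑ e, ((restr R G (y i).1 e (O i)).card : ℝ) := by
      refine (Finset.sum_le_sum fun i _ => h4 i).trans ?_
      rw [Finset.sum_add_distrib]
      simp
    have h6 : ((lift R G).M : ℝ) = outside R G + Fintype.card R.E * G.M := by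
      simp [lift]
    rw [Fintype.sum_prod_type, Fintype.card_prod, Nat.cast_mul]
    rw [h6] at h3
    have h3' : (Fintype.card I : ℝ) * (outside R G + Fintype.card R.E * G.M - θ) ≤
      ∑ i, ((O i).card : ℝ) := h3
    have h7 : (0 : ℝ) ≤ Fintype.card I := Nat.cast_nonneg _
    have h8 : (Fintype.card I : ℝ) * θ ≤ Fintype.card I * (θ' * Fintype.card R.E) :=
      mul_le_mul_of_nonneg_left hθ h7
    simp only
    linarith

end lift

end Pool.Agent.TH693.MP
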