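import Pool.Agent.TH693.MP.RSC
import Pool.Agent.TH693.MP.Base

/-!
# Choice of the parameters
-/

set_option autoImplicit false
set_option linter.unusedSectionVars false

open Finset Filter

namespace Pool.Agent.TH693.MP

/-- the numerical conditions for the hardness of the lifted gadget -/
theorem grow_num (c d ℓ u : ℕ) (δ β' β LY E U : ℝ) (hδ : 0 < δ) (hu : u = ℓ ^ (d + 2))
    (hE : 1 ≤ E) (hU : 1 ≤ U) (hLY : 0 ≤ LY) (hβ0 : 0 < β) (hβδ : β ≤ δ)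
    (hββ : 2 * (LY + 1) * β = δ * β') (f3 : 14 / δ ≤ 2 ^ ℓ)
    (h1 : 0 < β') (h3 : 1 / β' ≤ 2 ^ (ℓ ^ d)) (h6 : U ≤ 2 ^ (ℓ ^ d))
    (g6 : ℓ ^ d ≤ ℓ ^ (d + 2)) (g7 : (c + 1) * ℓ ≤ ℓ ^ (d + 2)) (p : ℝ) :
    p * δ + β / E + (2 * (E * LY + 1) * β + 2 / 2 ^ (3 * u) * (1 + 2 ^ (c * ℓ) * (6 * E * U))) /
      (β' * E) ≤ (p + 3) * δ := by
  have hE0 : 0 < E := by linarith
  have q1 : β / E ≤ δ := by
    rw [div_le_iff₀ hE0]
    nlinarith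
  have q2 : 2 * (E * LY + 1) * β ≤ δ * (β' * E) := by
    calc 2 * (E * LY + 1) * β ≤ 2 * (E * LY + E) * β := by gcongr
      _ = E * (2 * (LY + 1) * β) := by ring
      _ = _ := by rw [hββ]; ring
  have s0 : (1 : ℝ) ≤ 2 ^ (c * ℓ) := one_le_pow₀ (by norm_num)
  have s1 : (1 : ℝ) ≤ 2 ^ (c * ℓ) * (E * U) := by
    have h : 1 ≤ E * U := by nlinarith
    nlinarith
  have s2 : 1 + (2 : ℝ) ^ (c * ℓ) * (6 * E * U) ≤ 7 * (2 ^ (c * ℓ) * (E * U)) := by linarith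
  have s3 : (14 : ℝ) * 2 ^ (c * ℓ) * U ≤ 2 ^ (3 * u) * (δ * β') := by
    have e1 : (14 : ℝ) ≤ 2 ^ ℓ * δ := by
      rw [div_le_iff₀ hδ] at f3
      exact f3
    have e2 : 1 ≤ 2 ^ (ℓ ^ d) * β' := by
      rw [div_le_iff₀ h1] at h3
      exact h3
    calc (14 : ℝ) * 2 ^ (c * ℓ) * U ≤ (2 ^ ℓ * δ) * 2 ^ (c * ℓ) * 2 ^ (ℓ ^ d) := by gcongr
      _ = ((2 ^ ℓ * δ) * 2 ^ (c * ℓ) * 2 ^ (ℓ ^ d)) * 1 := by ring
      _ ≤ ((2 ^ ℓ * δ) * 2 ^ (c * ℓ) * 2 ^ (ℓ ^ d)) * (2 ^ (ℓ ^ d) * β') := by gcongr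
      _ = 2 ^ (ℓ + c * ℓ + ℓ ^ d + ℓ ^ d) * (δ * β') := by
          rw [pow_add (2 : ℝ), pow_add (2 : ℝ), pow_add (2 : ℝ)]; ring
      _ ≤ 2 ^ (3 * u) * (δ * β') := by
          refine mul_le_mul_of_nonneg_right (pow_le_pow_right₀ (by norm_num) ?_) (by positivity)
          rw [hu]
          have : ℓ + c * ℓ = (c + 1) * ℓ := by ring
          omega
  have q3 : 2 / 2 ^ (3 * u) * (1 + 2 ^ (c * ℓ) * (6 * E * U)) ≤ δ * (β' * E) := by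
    rw [div_mul_eq_mul_div, div_le_iff₀ (by positivity)]
    calc 2 * (1 + 2 ^ (c * ℓ) * (6 * E * U)) ≤ 2 * (7 * (2 ^ (c * ℓ) * (E * U))) := by gcongr
      _ = E * (14 * 2 ^ (c * ℓ) * U) := by ring
      _ ≤ E * (2 ^ (3 * u) * (δ * β')) := by gcongr
      _ = _ := by ring
  have q4 : (2 * (E * LY + 1) * β + 2 / 2 ^ (3 * u) * (1 + 2 ^ (c * ℓ) * (6 * E * U))) /
      (β' * E) ≤ 2 * δ := by
    rw [div_le_iff₀ (by positivity)]
    linarith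
  linarith

/-- one step of the recursion, with explicit numerical assumptions -/
theorem grow_step (r c d N ℓ : ℕ) (δ : ℝ) (hδ : 0 < δ) (hδ1 : δ ≤ 1) (hN : 1 ≤ N)
    (f1 : 6 * ℓ ^ (d + 2) ≤ 2 ^ ℓ) (f2 : 192 ≤ ℓ) (f3 : 14 / δ ≤ 2 ^ ℓ) (f4 : c + 1 ≤ ℓ)
    (G' : Gadget) (β' θ' : ℝ) (h1 : 0 < β') (h2 : β' ≤ 1) (h3 : 1 / β' ≤ 2 ^ (ℓ ^ d))
    (h4 : Fintype.card G'.U = Fintype.card G'.V) (h5 : 1 ≤ Fintype.card G'.U)
    (h6 : (Fintype.card G'.U : ℝ) ≤ 2 ^ (ℓ ^ d))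
    (h7 : Real.log (Fintype.card G'.X) ≤ 2 ^ (ℓ ^ d))
    (h8 : Real.log (Fintype.card G'.Y) ≤ 2 ^ (ℓ ^ d))
    (h9 : (Fintype.card G'.U : ℝ) = 2 * 6 ^ r * θ') (h10 : G'.M ≤ Fintype.card G'.U)
    (h11 : Hard G' r N θ' 1 β' (2 ^ ((c + 1) * ℓ) * Fintype.card G'.U) ((3 * r + 1) * δ)) :
    ∃ (G : Gadget) (β θ : ℝ), 0 < β ∧ β ≤ 1 ∧ 1 / β ≤ 2 ^ (ℓ ^ (d + 5)) ∧
      Fintype.card G.U = Fintype.card G.V ∧ 1 ≤ Fintype.card G.U ∧
      (Fintype.card G.U : ℝ) ≤ 2 ^ (ℓ ^ (d + 5)) ∧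
      Real.log (Fintype.card G.X) ≤ 2 ^ (ℓ ^ (d + 5)) ∧
      Real.log (Fintype.card G.Y) ≤ 2 ^ (ℓ ^ (d + 5)) ∧
      (Fintype.card G.U : ℝ) = 2 * 6 ^ (r + 1) * θ ∧ G.M ≤ Fintype.card G.U ∧
      Hard G (r + 1) N θ 1 β (2 ^ (c * ℓ) * Fintype.card G.U) ((3 * (r + 1 : ℕ) + 1) * δ) := by
  have hℓ0 : 0 < ℓ := by omega
  obtain ⟨u, hu⟩ : ∃ u : ℕ, u = ℓ ^ (d + 2) := ⟨_, rfl⟩
  have hu1 : 1 ≤ u := by rw [hu]; exact Nat.one_le_pow _ _ hℓ0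
  obtain ⟨R, hR1, hR2, hR3⟩ := exists_RS hu1
  have hV : Fintype.card R.V ≤ 2 ^ (ℓ ^ (d + 4)) := by
    rw [hR1]
    calc (6 * u) ^ (192 * u) ≤ (2 ^ ℓ) ^ (192 * u) := Nat.pow_le_pow_left (by rw [hu]; exact f1) _
      _ = 2 ^ (192 * ℓ ^ (d + 3)) := by
          rw [← pow_mul, hu]
          congr 1
          ring
      _ ≤ 2 ^ (ℓ ^ (d + 4)) := by
          apply Nat.pow_le_pow_right (by norm_num)
          rw [pow_succ ℓ (d + 3), mul_comm]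
          exact Nat.mul_le_mul_left _ f2
  have hV0 : 1 ≤ Fintype.card R.V := by rw [hR1]; exact Nat.one_le_pow _ _ (by omega)
  have hE1 : 1 ≤ Fintype.card R.E := by omega
  have hEr : (1 : ℝ) ≤ Fintype.card R.E := by exact_mod_cast hE1
  have hE0 : (0 : ℝ) < Fintype.card R.E := by linarith
  have hEV : (3 : ℝ) * Fintype.card R.E = Fintype.card R.V := by exact_mod_cast hR3
  have hVr : (Fintype.card R.V : ℝ) ≤ 2 ^ (ℓ ^ (d + 4)) := by exact_mod_cast hV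
  have hEle : (Fintype.card R.E : ℝ) ≤ 2 ^ (ℓ ^ (d + 4)) := by linarith
  have hTr : (Fintype.card R.T : ℝ) = 2 ^ (3 * u) := by rw [hR2]; push_cast; rfl
  have hU1 : (1 : ℝ) ≤ Fintype.card G'.U := by exact_mod_cast h5
  have hcU : Fintype.card (lift R G').U = 6 * Fintype.card R.E * Fintype.card G'.U := by
    change Fintype.card (LU R G') = _
    rw [Fintype.card_sum, Fintype.card_prod, Fintype.card_prod, ← h4, ← hR3]
    ring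
  have hcV : Fintype.card (lift R G').V = 6 * Fintype.card R.E * Fintype.card G'.U := by
    change Fintype.card (LV R G') = _
    rw [Fintype.card_sum, Fintype.card_prod, Fintype.card_prod, ← h4, ← hR3]
    ring
  have hcUr : (Fintype.card (lift R G').U : ℝ) = 6 * Fintype.card R.E * Fintype.card G'.U := by
    exact_mod_cast hcU
  have hLX0 : 0 ≤ Real.log (Fintype.card G'.X) := Real.log_natCast_nonneg _
  have hLY0 : 0 ≤ Real.log (Fintype.card G'.Y) := Real.log_natCast_nonneg _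
  obtain ⟨LY, hLY⟩ : ∃ LY : ℝ, LY = Real.log (Fintype.card G'.Y) := ⟨_, rfl⟩
  rw [← hLY] at hLY0 h8
  have hLE : Real.log (Fintype.card (R.E → G'.Y)) = Fintype.card R.E * LY := by
    rw [Fintype.card_fun, Nat.cast_pow, Real.log_pow, hLY]
  -- powers
  have hp1 : (1 : ℝ) ≤ 2 ^ (ℓ ^ d) := one_le_pow₀ (by norm_num)
  have hpow : ∀ a b : ℕ, a ≤ b → (2 : ℝ) ^ a ≤ 2 ^ b := fun a b h =>
    pow_le_pow_right₀ (by norm_num) h
  have g1 : ℓ ^ (d + 4) * 192 ≤ ℓ ^ (d + 5) := by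
    rw [pow_succ ℓ (d + 4)]
    exact Nat.mul_le_mul_left _ f2
  have g2 : ℓ ^ (d + 2) ≤ ℓ ^ (d + 4) := Nat.pow_le_pow_right hℓ0 (by omega)
  have g3 : ℓ ^ d ≤ ℓ ^ (d + 4) := Nat.pow_le_pow_right hℓ0 (by omega)
  have g4 : ℓ ≤ ℓ ^ (d + 4) := by
    calc ℓ = ℓ ^ 1 := (pow_one ℓ).symm
      _ ≤ ℓ ^ (d + 4) := Nat.pow_le_pow_right hℓ0 (by omega)
  have g5 : 1 ≤ ℓ ^ (d + 4) := Nat.one_le_pow _ _ hℓ0
  have g6 : ℓ ^ d ≤ ℓ ^ (d + 2) := Nat.pow_le_pow_right hℓ0 (by omega)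
  have g7 : (c + 1) * ℓ ≤ ℓ ^ (d + 2) := by
    calc (c + 1) * ℓ ≤ ℓ * ℓ := Nat.mul_le_mul_right _ f4
      _ = ℓ ^ 2 := by ring
      _ ≤ ℓ ^ (d + 2) := Nat.pow_le_pow_right hℓ0 (by omega)
  obtain ⟨β, hβ⟩ : ∃ β : ℝ, β = δ * β' / (2 * (LY + 1)) := ⟨_, rfl⟩
  have hβ0 : 0 < β := by rw [hβ]; positivity
  have hββ : 2 * (LY + 1) * β = δ * β' := by rw [hβ]; field_simp
  have hβδ : β ≤ δ := by nlinarith
  refine ⟨lift R G', β, θ' * Fintype.card R.E, hβ0, hβδ.trans hδ1, ?_, ?_, ?_, ?_, ?_, ?_, ?_, ?_,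
    ?_⟩
  · -- 1 / β
    have : 1 / β = 2 / δ * (LY + 1) * (1 / β') := by rw [hβ]; field_simp
    rw [this]
    have t1 : 2 / δ ≤ 2 ^ ℓ := by
      refine le_trans ?_ f3
      rw [div_le_div_iff_of_pos_right hδ]
      norm_num
    calc 2 / δ * (LY + 1) * (1 / β') ≤ 2 ^ ℓ * (2 ^ (ℓ ^ d) + 2 ^ (ℓ ^ d)) * 2 ^ (ℓ ^ d) := by
          gcongr
      _ = 2 ^ (ℓ + (1 + ℓ ^ d) + ℓ ^ d) := by
          rw [pow_add (2 : ℝ), pow_add (2 : ℝ), pow_add (2 : ℝ)]; ring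
      _ ≤ 2 ^ (ℓ ^ (d + 5)) := hpow _ _ (by omega)
  · rw [hcU, hcV]
  · rw [hcU]
    exact Nat.mul_pos (Nat.mul_pos (by norm_num) hE1) h5
  · rw [hcUr]
    calc (6 : ℝ) * Fintype.card R.E * Fintype.card G'.U = 2 * Fintype.card R.V *
          Fintype.card G'.U := by rw [← hEV]; ring
      _ ≤ 2 ^ 1 * 2 ^ (ℓ ^ (d + 4)) * 2 ^ (ℓ ^ d) := by
          rw [pow_one]
          gcongr
      _ = 2 ^ (1 + ℓ ^ (d + 4) + ℓ ^ d) := by rw [pow_add (2 : ℝ), pow_add (2 : ℝ)]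
      _ ≤ 2 ^ (ℓ ^ (d + 5)) := hpow _ _ (by omega)
  · -- log X
    have : Real.log (Fintype.card (lift R G').X) = Fintype.card R.T * (Fintype.card R.E * LY) := by
      change Real.log (Fintype.card (R.T → R.E → G'.Y)) = _
      rw [Fintype.card_fun, Nat.cast_pow, Real.log_pow, hLE]
    rw [this, hTr]
    calc (2 : ℝ) ^ (3 * u) * (Fintype.card R.E * LY) ≤
          2 ^ (3 * u) * (2 ^ (ℓ ^ (d + 4)) * 2 ^ (ℓ ^ d)) := by gcongr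
      _ = 2 ^ (3 * u + (ℓ ^ (d + 4) + ℓ ^ d)) := by rw [pow_add (2 : ℝ), pow_add (2 : ℝ)]
      _ ≤ 2 ^ (ℓ ^ (d + 5)) := hpow _ _ (by rw [hu]; omega)
  · -- log Y
    have : Real.log (Fintype.card (lift R G').Y) = Real.log (2 ^ (3 * u)) +
        Fintype.card R.E * Real.log (Fintype.card G'.X) := by
      change Real.log (Fintype.card (R.T × (R.E → G'.X))) = _
      rw [Fintype.card_prod, Fintype.card_fun, Nat.cast_mul, Nat.cast_pow, hTr, Real.log_mul,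
        Real.log_pow, Real.log_pow]
      · positivity
      · have : Fintype.card G'.X ≠ 0 := Fintype.card_ne_zero
        positivity
    rw [this]
    have t1 : Real.log (2 ^ (3 * u)) ≤ 2 ^ (3 * u) := by
      have := Real.log_le_sub_one_of_pos (show (0 : ℝ) < 2 ^ (3 * u) by positivity)
      linarith
    have t2 : (1 : ℝ) ≤ 2 ^ (ℓ ^ (d + 4)) * 2 ^ (ℓ ^ d) := by
      rw [← pow_add]
      exact one_le_pow₀ (by norm_num)
    have t3 : (1 : ℝ) ≤ 2 ^ (3 * u) := one_le_pow₀ (by norm_num)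
    calc Real.log (2 ^ (3 * u)) + Fintype.card R.E * Real.log (Fintype.card G'.X)
        ≤ 2 ^ (3 * u) + 2 ^ (ℓ ^ (d + 4)) * 2 ^ (ℓ ^ d) := by gcongr
      _ ≤ 2 ^ 1 * 2 ^ (3 * u) * (2 ^ (ℓ ^ (d + 4)) * 2 ^ (ℓ ^ d)) := by nlinarith
      _ = 2 ^ (1 + 3 * u + (ℓ ^ (d + 4) + ℓ ^ d)) := by rw [pow_add (2 : ℝ), pow_add (2 : ℝ), pow_add (2 : ℝ)]
      _ ≤ 2 ^ (ℓ ^ (d + 5)) := hpow _ _ (by rw [hu]; omega)
  · rw [hcUr, h9]; ring
  · change outside R G' + Fintype.card R.E * G'.M ≤ _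
    rw [hcU]
    unfold outside
    rw [← h4, ← hR3]
    have : 3 * Fintype.card R.E - Fintype.card R.E = 2 * Fintype.card R.E := by omega
    rw [this]
    have := Nat.mul_le_mul_left (Fintype.card R.E) h10
    nlinarith
  · -- hardness
    refine hard_lift R G' h11 hN hE1 le_rfl ?_ one_pos h1 (by positivity) ?_
    · rw [hcUr]
      have t1 : (6 : ℝ) ≤ 2 ^ ℓ := by
        calc (6 : ℝ) ≤ 2 ^ 3 := by norm_num
          _ ≤ 2 ^ ℓ := hpow _ _ (by omega)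
      have t2 : (2 : ℝ) ^ ((c + 1) * ℓ) = 2 ^ (c * ℓ) * 2 ^ ℓ := by
        rw [← pow_add]; congr 1; ring
      rw [t2]
      calc (2 : ℝ) ^ (c * ℓ) * (6 * Fintype.card R.E * Fintype.card G'.U) =
            2 ^ (c * ℓ) * (6 * (Fintype.card R.E * Fintype.card G'.U)) := by ring
        _ ≤ 2 ^ (c * ℓ) * (2 ^ ℓ * (Fintype.card R.E * Fintype.card G'.U)) := by gcongr
        _ = _ := by ring
    · rw [hLE, hTr, hcUr, one_mul]
      have h := grow_num c d ℓ u δ β' β LY (Fintype.card R.E) (Fintype.card G'.U) hδ hu hEr hU1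
        hLY0 hβ0 hβδ hββ f3 h1 h3 h6 g6 g7 (3 * r + 1)
      refine h.trans (le_of_eq ?_)
      push_cast
      ring

theorem exists_gadget (r : ℕ) : ∀ (c : ℕ) (δ : ℝ), 0 < δ → δ ≤ 1 → ∃ d N : ℕ, 1 ≤ N ∧
    ∀ᶠ ℓ : ℕ in atTop, ∃ (G : Gadget) (β θ : ℝ), 0 < β ∧ β ≤ 1 ∧ 1 / β ≤ 2 ^ (ℓ ^ d) ∧
      Fintype.card G.U = Fintype.card G.V ∧ 1 ≤ Fintype.card G.U ∧
      (Fintype.card G.U : ℝ) ≤ 2 ^ (ℓ ^ d) ∧
      Real.log (Fintype.card G.X) ≤ 2 ^ (ℓ ^ d) ∧ Real.log (Fintype.card G.Y) ≤ 2 ^ (ℓ ^ d) ∧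
      (Fintype.card G.U : ℝ) = 2 * 6 ^ r * θ ∧ G.M ≤ Fintype.card G.U ∧
      Hard G r N θ 1 β (2 ^ (c * ℓ) * Fintype.card G.U) ((3 * r + 1) * δ) := by
  induction r with
  | zero =>
    intro c δ hδ hδ1
    have hl2 : 0 < Real.log 2 := Real.log_pos (by norm_num)
    have hl2' : Real.log 2 ≤ 1 := by
      have := Real.log_le_sub_one_of_pos (show (0 : ℝ) < 2 by norm_num)
      linarith
    obtain ⟨N, hN⟩ := exists_nat_gt (4 / (δ * Real.log 2))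
    have hN0 : (0 : ℝ) < N := lt_trans (by positivity) hN
    obtain ⟨β, hβ⟩ : ∃ β : ℝ, β = δ * Real.log 2 / 4 := ⟨_, rfl⟩
    have hβ0 : 0 < β := by rw [hβ]; positivity
    have hN1 : 1 ≤ N := by
      have : 0 < N := by exact_mod_cast hN0
      omega
    refine ⟨1, N, hN1, ?_⟩
    have ev : ∀ᶠ ℓ : ℕ in atTop, 1 / β ≤ (2 : ℝ) ^ ℓ :=
      (tendsto_pow_atTop_atTop_of_one_lt (by norm_num)).eventually_ge_atTop _
    filter_upwards [ev, eventually_ge_atTop 1] with ℓ h1 h2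
    have h3 : (2 : ℝ) ≤ 2 ^ (ℓ ^ 1) := by
      rw [pow_one]
      calc (2 : ℝ) = 2 ^ 1 := (pow_one 2).symm
        _ ≤ 2 ^ ℓ := pow_le_pow_right₀ (by norm_num) h2
    refine ⟨base, β, 1, hβ0, ?_, ?_, rfl, ?_, ?_, ?_, ?_, ?_, ?_, ?_⟩
    · rw [hβ]; nlinarith
    · rw [pow_one]; exact h1
    · change 1 ≤ Fintype.card Bool
      simp
    · change (Fintype.card Bool : ℝ) ≤ _
      simp only [Fintype.card_bool, Nat.cast_ofNat]
      exact h3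
    · change Real.log (Fintype.card Unit) ≤ _
      simp
    · change Real.log (Fintype.card Bool) ≤ _
      simp only [Fintype.card_bool, Nat.cast_ofNat]
      linarith
    · change (Fintype.card Bool : ℝ) = _
      simp
    · change 2 ≤ Fintype.card Bool
      simp
    · refine hard_base hN1 hβ0.le ?_
      rw [div_le_iff₀ hl2, hβ]
      have : 1 / (N : ℝ) ≤ δ * Real.log 2 / 4 := by
        rw [div_le_iff₀ hN0]
        rw [div_lt_iff₀ (by positivity)] at hN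
        linarith
      push_cast
      linarith
  | succ r ih =>
    intro c δ hδ hδ1
    obtain ⟨d, N, hN, ev⟩ := ih (c + 1) δ hδ hδ1
    refine ⟨d + 5, N, hN, ?_⟩
    have ev1 : ∀ᶠ ℓ : ℕ in atTop, 6 * ℓ ^ (d + 2) ≤ 2 ^ ℓ := by
      have h1 : Tendsto (fun n : ℕ => (n : ℝ) ^ (d + 2) / (2 : ℝ) ^ n) atTop (nhds 0) :=
        tendsto_pow_const_div_const_pow_of_one_lt (d + 2) (by norm_num)
      have h2 := h1.eventually (gt_mem_nhds (show (0 : ℝ) < 1 / 6 by norm_num))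
      filter_upwards [h2] with ℓ h
      rw [div_lt_iff₀ (by positivity)] at h
      have : (6 : ℝ) * (ℓ : ℝ) ^ (d + 2) ≤ 2 ^ ℓ := by linarith
      exact_mod_cast this
    have ev3 : ∀ᶠ ℓ : ℕ in atTop, 14 / δ ≤ (2 : ℝ) ^ ℓ :=
      (tendsto_pow_atTop_atTop_of_one_lt (by norm_num)).eventually_ge_atTop _
    filter_upwards [ev, ev1, eventually_ge_atTop 192, ev3, eventually_ge_atTop (c + 1)] with
      ℓ hG f1 f2 f3 f4
    obtain ⟨G', β', θ', h1, h2, h3, h4, h5, h6, h7, h8, h9, h10, h11⟩ := hG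
    exact grow_step r c d N ℓ δ hδ hδ1 hN f1 f2 f3 f4 G' β' θ' h1 h2 h3 h4 h5 h6 h7 h8 h9 h10 h11

end Pool.Agent.TH693.MP
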