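import Pool.Agent.TH693.MP.Reduce
import Pool.Agent.TH693.MP.Grow

/-!
# Multi-pass lower bound: conclusion
-/

set_option autoImplicit false
set_option linter.unusedSectionVars false

open Finset Filter MeasureTheory

namespace Pool.Agent.TH693.MP

theorem dfc_uniform' {α : Type} (i : Fintype α) (h : Nonempty α) :
    @dfc α i (fun _ => (1 : ℝ)) = 0 := @dfc_uniform α i h

theorem not_solves_of_hard (G : Gadget) {m N : ℕ} {θ β σ p : ℝ}
    (h : Hard G (2 * m + 1) N θ 1 β σ p) (hβ : 0 ≤ β) (K n s : ℕ) (hK : N ≤ K)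
    (φ : Fin K × (G.U ⊕ G.V) ↪ Fin n)
    (hs : s * Real.log 2 + Real.log (Fintype.card (Sym2 (Fin n)) + 1) ≤ σ * K)
    {ε δ : ℝ} (hε : ε * G.M ≤ θ) (hε1 : ε ≤ 1) (hp : p < δ)
    {Ω : Type} [MeasurableSpace Ω] (μ : Measure Ω) [IsProbabilityMeasure μ] (A : Ω → Alg n s) :
    ¬ Solves μ A (m + 1) (1 - ε) δ := by
  classical
  intro hS
  set B := Fintype.card (Sym2 (Fin n)) + 1 with hB
  set lx : (Fin K → G.X) → List (Sym2 (Fin n)) := fun x => (edg φ fun i => G.EX (x i)).toList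
    with hlx
  set ly : (Fin K → G.Y) → List (Sym2 (Fin n)) := fun y => (edg φ fun i => G.EY (y i)).toList
    with hly
  have hlB : ∀ x, (lx x).length < B := by
    intro x
    rw [hlx, hB]
    simp only [length_toList]
    have := card_le_univ (edg φ fun i => G.EX (x i))
    omega
  set S : (Fin K → G.X) × (Fin K → G.Y) → Set Ω := fun z =>
    {ω | Good (1 - ε) (gr φ z.1 z.2) ((A ω).output (m + 1) (lx z.1 ++ ly z.2))} with hSdef
  have hSm : ∀ z, MeasurableSet (S z) := fun z => (hS _ _ (isStream_gr φ z.1 z.2)).1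
  have hSp : ∀ z, δ ≤ μ.real (S z) := fun z => (hS _ _ (isStream_gr φ z.1 z.2)).2
  have hcard : (0 : ℝ) < Fintype.card ((Fin K → G.X) × (Fin K → G.Y)) := by
    exact_mod_cast Fintype.card_pos
  have key : ∀ ω, ∑ z, (S z).indicator (1 : Ω → ℝ) ω ≤
      p * Fintype.card ((Fin K → G.X) × (Fin K → G.Y)) := by
    intro ω
    have h1 := h (Fin K) (Fin K → G.X) (Fin K → G.Y) (Msg s B) (Finset (Sym2 (Fin n)))
      (by rw [Fintype.card_fin]; exact hK)
      (by
        rw [Fintype.card_prod, Fintype.card_fin, Fintype.card_fin, Nat.cast_mul, Real.log_mul,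
          Nat.cast_pow, Real.log_pow, Fintype.card_fin]
        · rw [hB]
          push_cast
          exact hs
        · positivity
        · rw [hB]; positivity)
      (fun _ => 1) (fun _ => 1) (fun _ => zero_le_one) (fun _ => zero_le_one)
      (fun x => x) (fun y => y)
      (by
        rw [push_id]
        refine le_trans (le_of_eq (dfc_uniform' _ inferInstance)) ?_
        unfold mass
        positivity)
      (by
        rw [push_id]
        refine le_trans (le_of_eq (dfc_uniform' _ inferInstance)) ?_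
        unfold mass
        positivity)
      (dec φ) (protoOf (A ω) lx ly B hlB m 0 (A ω).init)
    have h2 : mass (fun _ : Fin K → G.X => (1 : ℝ)) * mass (fun _ : Fin K → G.Y => (1 : ℝ)) =
        Fintype.card ((Fin K → G.X) × (Fin K → G.Y)) := by
      unfold mass
      simp
    rw [← h2]
    refine le_trans ?_ h1
    rw [Fintype.sum_prod_type]
    refine Finset.sum_le_sum fun x _ => Finset.sum_le_sum fun y _ => ?_
    have h3 := protoOf_run (A ω) lx ly B hlB x y m 0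
    rw [Nat.zero_add] at h3
    change (protoOf (A ω) lx ly B hlB m 0 (A ω).init).run (2 * m + 1) x y =
      (A ω).output (m + 1) (lx x ++ ly y) at h3
    rw [h3]
    by_cases hω : ω ∈ S (x, y)
    · rw [Set.indicator_of_mem hω, if_pos]
      · simp
      · exact succ_of_good φ hε hε1 hω
    · rw [Set.indicator_of_notMem hω]
      split_ifs <;> simp
  have hint : ∫ ω, ∑ z, (S z).indicator (1 : Ω → ℝ) ω ∂μ = ∑ z, μ.real (S z) := by
    rw [integral_finsetSum]
    · refine Finset.sum_congr rfl fun z _ => ?_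
      exact integral_indicator_one (hSm z)
    · intro z _
      exact (integrable_const (1 : ℝ)).indicator (hSm z)
  have h4 : ∫ ω, ∑ z, (S z).indicator (1 : Ω → ℝ) ω ∂μ ≤
      ∫ _ω, p * Fintype.card ((Fin K → G.X) × (Fin K → G.Y)) ∂μ := by
    refine integral_mono ?_ (integrable_const _) key
    refine integrable_finsetSum _ fun z _ => ?_
    exact (integrable_const (1 : ℝ)).indicator (hSm z)
  rw [hint, integral_const] at h4
  simp only [probReal_univ, smul_eq_mul, one_mul] at h4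
  have h5 : δ * Fintype.card ((Fin K → G.X) × (Fin K → G.Y)) ≤ ∑ z, μ.real (S z) := by
    refine le_trans (le_of_eq ?_) (Finset.sum_le_sum fun z _ => hSp z)
    simp [mul_comm]
  have h6 : p * Fintype.card ((Fin K → G.X) × (Fin K → G.Y)) <
      δ * Fintype.card ((Fin K → G.X) × (Fin K → G.Y)) := mul_lt_mul_of_pos_right hp hcard
  linarith

/-- the iterated logarithm used to choose the parameters -/
def lv (n : ℕ) : ℕ := Nat.log 2 (Nat.log 2 n) + 1

theorem tendsto_lv : Tendsto lv atTop atTop := by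
  refine tendsto_atTop.2 fun b => ?_
  filter_upwards [eventually_ge_atTop (2 ^ (2 ^ b))] with n hn
  have h1 : 2 ^ b ≤ Nat.log 2 n := Nat.le_log_of_pow_le (by norm_num) hn
  have h2 : b ≤ Nat.log 2 (Nat.log 2 n) := Nat.le_log_of_pow_le (by norm_num) h1
  unfold lv
  omega

theorem lt_pow_lv (n : ℕ) : n < 2 ^ (2 ^ lv n) := by
  have h1 : n < 2 ^ (Nat.log 2 n + 1) := Nat.lt_pow_succ_log_self (by norm_num) n
  have h2 : Nat.log 2 n < 2 ^ (Nat.log 2 (Nat.log 2 n) + 1) :=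
    Nat.lt_pow_succ_log_self (by norm_num) _
  exact h1.trans_le (Nat.pow_le_pow_right (by norm_num) h2)

theorem pow_lv_le {n : ℕ} (hn : 2 ≤ n) : 2 ^ (2 ^ (lv n - 1)) ≤ n := by
  have h0 : 1 ≤ Nat.log 2 n := Nat.le_log_of_pow_le (by norm_num) (by simpa using hn)
  have h1 : 2 ^ Nat.log 2 (Nat.log 2 n) ≤ Nat.log 2 n := Nat.pow_log_le_self 2 (by omega)
  have h2 : 2 ^ Nat.log 2 n ≤ n := Nat.pow_log_le_self 2 (by omega)
  unfold lv
  rw [Nat.add_sub_cancel]
  exact (Nat.pow_le_pow_right (by norm_num) h1).trans h2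

theorem log_le_lv {n : ℕ} (hn : 1 ≤ n) : Real.log n ≤ 2 ^ lv n := by
  have h1 : (n : ℝ) ≤ 2 ^ (2 ^ lv n) := by exact_mod_cast (lt_pow_lv n).le
  have h2 := Real.log_le_log (by exact_mod_cast hn) h1
  rw [Real.log_pow] at h2
  have hl2 : Real.log 2 ≤ 1 := by
    have := Real.log_le_sub_one_of_pos (show (0 : ℝ) < 2 by norm_num)
    linarith
  refine h2.trans ?_
  push_cast
  have : (0 : ℝ) ≤ 2 ^ lv n := by positivity
  nlinarith

theorem log_sym2 (n : ℕ) (hn : 1 ≤ n) :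
    Real.log (Fintype.card (Sym2 (Fin n)) + 1) ≤ 2 * n := by
  have hn' : (1 : ℝ) ≤ n := by exact_mod_cast hn
  have h1 : (Fintype.card (Sym2 (Fin n)) : ℝ) + 1 ≤ (n + 1) ^ 2 := by
    have h2 : Fintype.card (Sym2 (Fin n)) ≤ n * n := by
      have := Fintype.card_le_of_surjective (fun p : Fin n × Fin n => s(p.1, p.2)) (by
        intro e
        induction e using Sym2.ind with
        | _ a b => exact ⟨(a, b), rfl⟩)
      rwa [Fintype.card_prod, Fintype.card_fin] at this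
    have h3 : (Fintype.card (Sym2 (Fin n)) : ℝ) ≤ n * n := by exact_mod_cast h2
    nlinarith
  have h4 := Real.log_le_log (by positivity) h1
  rw [Real.log_pow] at h4
  have h5 := Real.log_le_sub_one_of_pos (show (0 : ℝ) < n + 1 by positivity)
  push_cast at h4
  linarith

theorem lower_bound (k : ℕ) (hk : 1 ≤ k) (C : ℝ) (c : ℕ) (δ : ℝ) (hδ : 0 < δ) :
    ∃ n₀ : ℕ, ∀ n : ℕ, n₀ ≤ n → ∀ s : ℕ, (s : ℝ) ≤ C * n * Real.log n ^ c →
      ∀ (Ω : Type) [MeasurableSpace Ω] (μ : Measure Ω) [IsProbabilityMeasure μ]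
        (A : Ω → Alg n s), ¬ Solves μ A k (1 - 3 / 36 ^ k) δ := by
  obtain ⟨m, rfl⟩ : ∃ m, k = m + 1 := ⟨k - 1, by omega⟩
  obtain ⟨δ', hδ'⟩ : ∃ δ' : ℝ, δ' = min δ 1 / (3 * (2 * m + 1) + 2) := ⟨_, rfl⟩
  have hm0 : (0 : ℝ) < 3 * (2 * m + 1) + 2 := by positivity
  have hmin : 0 < min δ 1 := lt_min hδ one_pos
  have hδ'0 : 0 < δ' := by rw [hδ']; positivity
  have hδ'e : δ' * (3 * (2 * m + 1) + 2) = min δ 1 := by rw [hδ']; field_simp
  have hδ'1 : δ' ≤ 1 := by
    have : min δ 1 ≤ 1 := min_le_right _ _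
    have hm1 : (0 : ℝ) ≤ m := Nat.cast_nonneg _
    nlinarith
  obtain ⟨d, N, hN, ev⟩ := exists_gadget (2 * m + 1) (c + 1) δ' hδ'0 hδ'1
  have ev1 : ∀ᶠ ℓ : ℕ in atTop, 4 * (|C| + 2) ≤ (2 : ℝ) ^ ℓ :=
    (tendsto_pow_atTop_atTop_of_one_lt (by norm_num)).eventually_ge_atTop _
  have ev2 : ∀ᶠ ℓ : ℕ in atTop, ℓ ^ d + (N + 1) ≤ 2 ^ (ℓ - 1) := by
    have h1 : Tendsto (fun n : ℕ => (n : ℝ) ^ d / (2 : ℝ) ^ n) atTop (nhds 0) :=
      tendsto_pow_const_div_const_pow_of_one_lt d (by norm_num)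
    have h2 := h1.eventually (gt_mem_nhds (show (0 : ℝ) < 1 / 4 by norm_num))
    have h3 : ∀ᶠ ℓ : ℕ in atTop, 4 * ((N : ℝ) + 1) ≤ (2 : ℝ) ^ ℓ :=
      (tendsto_pow_atTop_atTop_of_one_lt (by norm_num)).eventually_ge_atTop _
    filter_upwards [h2, h3, eventually_ge_atTop 1] with ℓ h4 h5 h6
    rw [div_lt_iff₀ (by positivity)] at h4
    have h7 : (2 : ℝ) ^ ℓ = 2 * 2 ^ (ℓ - 1) := by
      rw [← pow_succ']
      congr 1
      omega
    have h8 : (ℓ : ℝ) ^ d + (N + 1) ≤ 2 ^ (ℓ - 1) := by linarith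
    exact_mod_cast h8
  have evn := tendsto_lv.eventually (ev.and (ev1.and ev2))
  obtain ⟨n₁, hn₁⟩ := eventually_atTop.1 evn
  refine ⟨max n₁ 3, fun n hn s hs Ω _ μ _ A => ?_⟩
  have hn3 : 3 ≤ n := (le_max_right _ _).trans hn
  obtain ⟨⟨G, β, θ, h1, h2, h3, h4, h5, h6, h7, h8, h9, h10, h11⟩, g1, g2⟩ :=
    hn₁ n ((le_max_left _ _).trans hn)
  obtain ⟨ℓ, hℓ⟩ : ∃ ℓ : ℕ, ℓ = lv n := ⟨_, rfl⟩
  rw [← hℓ] at h3 h6 h7 h8 h11 g1 g2
  obtain ⟨K, hK⟩ : ∃ K : ℕ, K = n / (2 * Fintype.card G.U) := ⟨_, rfl⟩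
  have hU0 : 0 < 2 * Fintype.card G.U := by omega
  have hUN : 2 * Fintype.card G.U * N ≤ n := by
    have e1 : (Fintype.card G.U : ℝ) ≤ 2 ^ (ℓ ^ d) := h6
    have e2 : Fintype.card G.U ≤ 2 ^ (ℓ ^ d) := by exact_mod_cast e1
    have e3 : N ≤ 2 ^ N := Nat.lt_two_pow_self.le
    calc 2 * Fintype.card G.U * N ≤ 2 * 2 ^ (ℓ ^ d) * 2 ^ N := by gcongr
      _ = 2 ^ (ℓ ^ d + (N + 1)) := by rw [pow_add, pow_succ]; ring
      _ ≤ 2 ^ (2 ^ (ℓ - 1)) := Nat.pow_le_pow_right (by norm_num) g2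
      _ ≤ n := by rw [hℓ]; exact pow_lv_le (by omega)
  have hKN : N ≤ K := by
    rw [hK, Nat.le_div_iff_mul_le hU0, mul_comm]
    exact hUN
  have hK1 : 1 ≤ K := hN.trans hKN
  have hKn : n ≤ 4 * Fintype.card G.U * K := by
    have e1 : n < 2 * Fintype.card G.U * (K + 1) := by
      rw [hK]
      exact Nat.lt_mul_div_succ n hU0
    nlinarith
  have hKle : K * (Fintype.card G.U + Fintype.card G.V) ≤ n := by
    rw [← h4, ← two_mul, hK]
    exact Nat.div_mul_le_self n _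
  obtain ⟨φ⟩ : Nonempty (Fin K × (G.U ⊕ G.V) ↪ Fin n) := by
    refine Function.Embedding.nonempty_of_card_le ?_
    rw [Fintype.card_prod, Fintype.card_sum, Fintype.card_fin, Fintype.card_fin]
    exact hKle
  have hnr : (3 : ℝ) ≤ n := by exact_mod_cast hn3
  have hlog1 : 1 ≤ Real.log n := by
    have e1 : Real.exp 1 ≤ n := by
      have := Real.exp_one_lt_d9
      linarith
    rw [← Real.log_exp 1]
    exact Real.log_le_log (Real.exp_pos 1) e1
  have hlog2 : Real.log n ≤ 2 ^ ℓ := by rw [hℓ]; exact log_le_lv (by omega)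
  have hs' : s * Real.log 2 + Real.log (Fintype.card (Sym2 (Fin n)) + 1) ≤
      2 ^ ((c + 1) * ℓ) * Fintype.card G.U * K := by
    have hl2 : Real.log 2 ≤ 1 := by
      have := Real.log_le_sub_one_of_pos (show (0 : ℝ) < 2 by norm_num)
      linarith
    have e1 : (s : ℝ) * Real.log 2 ≤ s := by
      have : (0 : ℝ) ≤ s := Nat.cast_nonneg _
      nlinarith
    have e2 := log_sym2 n (by omega)
    have e3 : (1 : ℝ) ≤ Real.log n ^ c := one_le_pow₀ hlog1
    have e4 : Real.log n ^ c ≤ 2 ^ (c * ℓ) := by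
      calc Real.log n ^ c ≤ (2 ^ ℓ) ^ c := pow_le_pow_left₀ (by linarith) hlog2 c
        _ = 2 ^ (c * ℓ) := by rw [← pow_mul, mul_comm]
    have e5 : (s : ℝ) ≤ |C| * n * Real.log n ^ c := by
      refine hs.trans ?_
      have : C ≤ |C| := le_abs_self C
      gcongr
    have e6 : (2 : ℝ) * n ≤ 2 * n * Real.log n ^ c := by nlinarith
    have e7 : (s : ℝ) * Real.log 2 + Real.log (Fintype.card (Sym2 (Fin n)) + 1) ≤
        (|C| + 2) * n * 2 ^ (c * ℓ) := by
      calc (s : ℝ) * Real.log 2 + Real.log (Fintype.card (Sym2 (Fin n)) + 1) ≤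
            (|C| + 2) * n * Real.log n ^ c := by linarith
        _ ≤ (|C| + 2) * n * 2 ^ (c * ℓ) := by
            have : 0 ≤ |C| := abs_nonneg C
            gcongr
    refine e7.trans ?_
    have e8 : (n : ℝ) ≤ 4 * Fintype.card G.U * K := by exact_mod_cast hKn
    have e9 : (2 : ℝ) ^ ((c + 1) * ℓ) = 2 ^ ℓ * 2 ^ (c * ℓ) := by
      rw [← pow_add]; congr 1; ring
    rw [e9]
    calc (|C| + 2) * n * 2 ^ (c * ℓ) ≤ (|C| + 2) * (4 * Fintype.card G.U * K) * 2 ^ (c * ℓ) := by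
          have : 0 ≤ |C| := abs_nonneg C
          gcongr
      _ = (4 * (|C| + 2)) * (2 ^ (c * ℓ) * Fintype.card G.U * K) := by ring
      _ ≤ 2 ^ ℓ * (2 ^ (c * ℓ) * Fintype.card G.U * K) := by gcongr
      _ = _ := by ring
  refine not_solves_of_hard G h11 h1.le K n s hKN φ hs' (ε := 3 / 36 ^ (m + 1)) ?_ ?_ ?_ μ A
  · have e1 : (G.M : ℝ) ≤ 2 * 6 ^ (2 * m + 1) * θ := by
      rw [← h9]; exact_mod_cast h10
    have e2 : (36 : ℝ) ^ (m + 1) = 6 * 6 ^ (2 * m + 1) := by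
      rw [← pow_succ', show 2 * m + 1 + 1 = 2 * (m + 1) by ring, pow_mul]
      norm_num
    rw [e2, div_mul_eq_mul_div, div_le_iff₀ (by positivity)]
    linarith
  · rw [div_le_one (by positivity)]
    calc (3 : ℝ) ≤ 36 ^ 1 := by norm_num
      _ ≤ 36 ^ (m + 1) := pow_le_pow_right₀ (by norm_num) (by omega)
  · push_cast
    have e1 : min δ 1 ≤ δ := min_le_left _ _
    nlinarith

end Pool.Agent.TH693.MP
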