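import Mathlib

/-!
# Streaming algorithms for matchings: the model

Definitions only.
-/

set_option autoImplicit false

namespace Pool.Agent.TH693.MP

open MeasureTheory

/-- `L` is an ordering of the edges of the graph `G`: it lists every edge exactly once. -/
def IsStream {n : ℕ} (G : SimpleGraph (Fin n)) (L : List (Sym2 (Fin n))) : Prop :=
  L.Nodup ∧ ∀ e, e ∈ L ↔ e ∈ G.edgeSet

/-- `M` is a matching of the graph `G`: a set of edges of `G`, no two of which share a vertex. -/
def IsMatching {n : ℕ} (G : SimpleGraph (Fin n)) (M : Finset (Sym2 (Fin n))) : Prop :=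
  (∀ e ∈ M, e ∈ G.edgeSet) ∧ ∀ e ∈ M, ∀ e' ∈ M, ∀ v, v ∈ e → v ∈ e' → e = e'

open Classical in
/-- The size of a maximum matching of `G`. -/
noncomputable def maxMatching {n : ℕ} (G : SimpleGraph (Fin n)) : ℕ :=
  (Finset.univ.filter fun M : Finset (Sym2 (Fin n)) => IsMatching G M).sup Finset.card

/-- A deterministic streaming algorithm with `s` bits of memory, that is, with `2 ^ s` memory
contents: the initial memory, the new memory after an edge is read (it may depend in any way on the
number of the pass, on the position of the edge in the stream, on the old memory and on the edge),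
and the set of edges that is output at the end. -/
structure Alg (n s : ℕ) where
  init : Fin (2 ^ s)
  step : ℕ → ℕ → Fin (2 ^ s) → Sym2 (Fin n) → Fin (2 ^ s)
  out : Fin (2 ^ s) → Finset (Sym2 (Fin n))

/-- The memory after the edges of the list are read in pass number `j`, the first of them being at
position `i` of the stream, if the memory was `q` before. -/
def Alg.read {n s : ℕ} (A : Alg n s) (j : ℕ) :
    ℕ → Fin (2 ^ s) → List (Sym2 (Fin n)) → Fin (2 ^ s)
  | _, q, [] => q
  | i, q, e :: L => A.read j (i + 1) (A.step j i q e) L

/-- The memory after `k` passes over the stream `L`. -/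
def Alg.after {n s : ℕ} (A : Alg n s) (L : List (Sym2 (Fin n))) : ℕ → Fin (2 ^ s)
  | 0 => A.init
  | k + 1 => A.read k 0 (A.after L k) L

/-- The set of edges that is output after `k` passes over the stream `L`. -/
def Alg.output {n s : ℕ} (A : Alg n s) (k : ℕ) (L : List (Sym2 (Fin n))) :
    Finset (Sym2 (Fin n)) := A.out (A.after L k)

/-- `M` is a matching of `G` with at least `ρ` times as many edges as a maximum matching. -/
def Good {n : ℕ} (ρ : ℝ) (G : SimpleGraph (Fin n)) (M : Finset (Sym2 (Fin n))) : Prop :=
  IsMatching G M ∧ ρ * maxMatching G ≤ M.card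

/-- The randomized algorithm `A` (a deterministic algorithm for every outcome `ω` of a random
experiment) with `k` passes finds, for every graph on `n` vertices and every order of its edges, a
matching with at least `ρ` times the maximum number of edges, with probability at least `p`. -/
def Solves {n s : ℕ} {Ω : Type} [MeasurableSpace Ω] (μ : Measure Ω) (A : Ω → Alg n s) (k : ℕ)
    (ρ p : ℝ) : Prop :=
  ∀ (G : SimpleGraph (Fin n)) (L : List (Sym2 (Fin n))), IsStream G L →
    MeasurableSet {ω | Good ρ G ((A ω).output k L)} ∧
      p ≤ μ.real {ω | Good ρ G ((A ω).output k L)}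

end Pool.Agent.TH693.MP
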