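import Pool.Agent.TH693.MP.Gadget

/-!
# Graphs that are unions of many large induced matchings
-/

set_option autoImplicit false
set_option linter.unusedSectionVars false

open Finset

namespace Pool.Agent.TH693.MP

/-- number of places where two words agree -/
def agree {u : ℕ} (f g : Fin (3 * u) → Fin 64) : ℕ := (univ.filter fun i => f i = g i).card

theorem agree_comm {u : ℕ} (f g : Fin (3 * u) → Fin 64) : agree f g = agree g f := by
  unfold agree
  congr 1
  ext i
  simp [eq_comm]

theorem card_agree {u : ℕ} (hu : 1 ≤ u) (f : Fin (3 * u) → Fin 64) :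
    (univ.filter fun g => u < agree f g).card ≤ 2 ^ (3 * u) * 64 ^ (2 * u - 1) := by
  classical
  have h1 : (univ.filter fun g => u < agree f g) ⊆
      (univ : Finset (Finset (Fin (3 * u)))).biUnion fun S =>
        if S.card = u + 1 then Fintype.piFinset (fun i => if i ∈ S then {f i} else univ) else ∅ := by
    intro g hg
    have hg' := (mem_filter.1 hg).2
    unfold agree at hg'
    obtain ⟨S, hS1, hS2⟩ := exists_subset_card_eq (show u + 1 ≤
      (univ.filter fun i => f i = g i).card from hg')
    rw [mem_biUnion]
    refine ⟨S, mem_univ _, ?_⟩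
    rw [if_pos hS2, Fintype.mem_piFinset]
    intro i
    split_ifs with h
    · rw [mem_singleton]
      exact ((mem_filter.1 (hS1 h)).2).symm
    · exact mem_univ _
  refine (card_le_card h1).trans (card_biUnion_le.trans ?_)
  calc ∑ S : Finset (Fin (3 * u)), (if S.card = u + 1 then
        Fintype.piFinset (fun i => if i ∈ S then {f i} else univ) else ∅).card
      ≤ ∑ _S : Finset (Fin (3 * u)), 64 ^ (2 * u - 1) := by
        refine Finset.sum_le_sum fun S _ => ?_
        split_ifs with h
        · rw [Fintype.card_piFinset]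
          have h2 : ∀ i, (if i ∈ S then ({f i} : Finset (Fin 64)) else univ).card =
              if i ∈ S then 1 else 64 := by
            intro i
            split_ifs <;> simp
          simp only [h2]
          rw [Finset.prod_ite]
          simp only [prod_const_one, prod_const, one_mul]
          apply Nat.pow_le_pow_right (by norm_num)
          have h3 : (univ.filter fun i => i ∉ S) = univ \ S := by
            ext i; simp
          rw [h3, card_sdiff_of_subset (subset_univ _), card_univ, Fintype.card_fin, h]
          omega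
        · simp
    _ = 2 ^ (3 * u) * 64 ^ (2 * u - 1) := by
        rw [sum_const, card_univ, Fintype.card_finset, Fintype.card_fin, smul_eq_mul]

theorem exists_code {u : ℕ} (hu : 1 ≤ u) (s : ℕ) (hs : s ≤ 2 ^ (3 * u)) :
    ∃ C : Finset (Fin (3 * u) → Fin 64), C.card = s ∧ ∀ f ∈ C, ∀ g ∈ C, f ≠ g → agree f g ≤ u := by
  classical
  induction s with
  | zero => exact ⟨∅, rfl, by simp⟩
  | succ s ih =>
    obtain ⟨C, hC1, hC2⟩ := ih (by omega)
    have h1 : (C.biUnion fun f => univ.filter fun g => u < agree f g).card < 64 ^ (3 * u) := by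
      calc (C.biUnion fun f => univ.filter fun g => u < agree f g).card
          ≤ C.card * (2 ^ (3 * u) * 64 ^ (2 * u - 1)) :=
            card_biUnion_le_card_mul _ _ _ fun f _ => card_agree hu f
        _ < 2 ^ (3 * u) * (2 ^ (3 * u) * 64 ^ (2 * u - 1)) := by
            rw [hC1]
            exact Nat.mul_lt_mul_of_pos_right (by omega) (by positivity)
        _ = 2 ^ (3 * u + 3 * u + 6 * (2 * u - 1)) := by
            rw [show (64 : ℕ) = 2 ^ 6 by norm_num, ← pow_mul, ← pow_add, ← pow_add]
            congr 1
            ring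
        _ ≤ 2 ^ (6 * (3 * u)) := Nat.pow_le_pow_right (by norm_num) (by omega)
        _ = 64 ^ (3 * u) := by rw [pow_mul]; norm_num
    have h2 : (C.biUnion fun f => univ.filter fun g => u < agree f g).card <
        (univ : Finset (Fin (3 * u) → Fin 64)).card := by
      rw [card_univ, Fintype.card_fun, Fintype.card_fin, Fintype.card_fin]
      exact h1
    obtain ⟨g, -, hg⟩ := exists_mem_notMem_of_card_lt_card h2
    have hg' : ∀ f ∈ C, agree f g ≤ u := by
      intro f hf
      by_contra hcon
      push Not at hcon
      exact hg (mem_biUnion.2 ⟨f, hf, mem_filter.2 ⟨mem_univ _, hcon⟩⟩)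
    have hgC : g ∉ C := by
      intro hgC
      have := hg' g hgC
      unfold agree at this
      simp only [filter_true, card_univ, Fintype.card_fin] at this
      omega
    refine ⟨insert g C, by rw [card_insert_of_notMem hgC, hC1], ?_⟩
    intro f hf f' hf' hne
    rw [mem_insert] at hf hf'
    rcases hf with rfl | hf <;> rcases hf' with rfl | hf'
    · exact absurd rfl hne
    · rw [agree_comm]; exact hg' _ hf'
    · exact hg' _ hf
    · exact hC2 _ hf _ hf' hne

theorem exists_words {u : ℕ} (hu : 1 ≤ u) :
    ∃ c : Fin (2 ^ (3 * u)) → Fin (3 * u) → Fin 64, ∀ j j', j ≠ j' → agree (c j) (c j') ≤ u := by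
  obtain ⟨C, hC1, hC2⟩ := exists_code hu (2 ^ (3 * u)) le_rfl
  let e := (C.equivFinOfCardEq hC1).symm
  refine ⟨fun j => (e j).1, ?_⟩
  intro j j' hne
  refine hC2 _ (e j).2 _ (e j').2 ?_
  intro h
  exact hne (e.injective (Subtype.ext h))

section construct

variable {u : ℕ}

/-- the vertices on each side -/
abbrev Vx (u : ℕ) := Fin (3 * u) × Fin 64 → ZMod (6 * u)

/-- the sum of the coordinates at the places given by the word `f` -/
def ph (f : Fin (3 * u) → Fin 64) : Vx u →+ ZMod (6 * u) where
  toFun x := ∑ i, x (i, f i)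
  map_zero' := by simp
  map_add' x y := by simp [Finset.sum_add_distrib]

/-- the indicator function of the graph of the word `f` -/
def ind1 (f : Fin (3 * u) → Fin 64) : Vx u := fun p => if p.2 = f p.1 then 1 else 0

theorem ph_ind1 (f g : Fin (3 * u) → Fin 64) : ph f (ind1 g) = (agree f g : ZMod (6 * u)) := by
  change ∑ i, (if f i = g i then (1 : ZMod (6 * u)) else 0) = _
  rw [Finset.sum_boole]
  rfl

theorem agree_self (f : Fin (3 * u) → Fin 64) : agree f f = 3 * u := by
  unfold agree
  simp

theorem ph_surj (hu : 1 ≤ u) (f : Fin (3 * u) → Fin 64) : Function.Surjective (ph f) := by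
  intro s
  have i0 : Fin (3 * u) := ⟨0, by omega⟩
  refine ⟨Pi.single (i0, f i0) s, ?_⟩
  change ∑ i, (Pi.single (i0, f i0) s : Vx u) (i, f i) = s
  rw [Finset.sum_eq_single i0]
  · simp
  · intro i _ hi
    rw [Pi.single_eq_of_ne]
    intro h
    exact hi (Prod.mk.inj h).1
  · simp

theorem card_lt [NeZero (6 * u)] (hu : 1 ≤ u) (f : Fin (3 * u) → Fin 64) :
    3 * Fintype.card {x : Vx u // (ph f x).val < 2 * u} = (6 * u) ^ (192 * u) := by
  classical
  have hV : Fintype.card (Vx u) = (6 * u) ^ (192 * u) := by
    rw [Fintype.card_fun, ZMod.card, Fintype.card_prod, Fintype.card_fin, Fintype.card_fin]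
    congr 1
    ring
  obtain ⟨c, hc⟩ : ∃ c : ℕ, ∀ s : ZMod (6 * u), (univ.filter fun x : Vx u => ph f x = s).card = c := by
    refine ⟨(univ.filter fun x : Vx u => ph f x = 0).card, fun s => ?_⟩
    exact AddMonoidHom.card_fiber_eq_of_mem_range (ph f) (ph_surj hu f s) (ph_surj hu f 0)
  have h1 : ∀ S : Finset (ZMod (6 * u)), (univ.filter fun x : Vx u => ph f x ∈ S).card =
      S.card * c := by
    intro S
    have : (univ.filter fun x : Vx u => ph f x ∈ S) =
        S.biUnion fun s => univ.filter fun x : Vx u => ph f x = s := by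
      ext x
      simp
    rw [this, card_biUnion]
    · simp [hc]
    · intro s _ t _ hst
      rw [Function.onFun, disjoint_left]
      intro x hx hx'
      exact hst ((mem_filter.1 hx).2.symm.trans (mem_filter.1 hx').2)
  have h2 : (6 * u) * c = (6 * u) ^ (192 * u) := by
    have := h1 univ
    rw [card_univ, ZMod.card] at this
    rw [← this, ← hV]
    simp
  have h3 : (univ.filter fun s : ZMod (6 * u) => s.val < 2 * u).card = 2 * u := by
    have : (univ.filter fun s : ZMod (6 * u) => s.val < 2 * u) =
        (Finset.range (2 * u)).image (fun k : ℕ => (k : ZMod (6 * u))) := by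
      ext s
      simp only [mem_filter, mem_univ, true_and, mem_image, mem_range]
      constructor
      · intro h
        exact ⟨s.val, h, ZMod.natCast_zmod_val s⟩
      · rintro ⟨k, hk, rfl⟩
        rw [ZMod.val_natCast_of_lt (by omega)]
        exact hk
    rw [this, card_image_of_injOn, card_range]
    intro k hk l hl h
    have hk' : k < 2 * u := by simpa using hk
    have hl' : l < 2 * u := by simpa using hl
    have := congrArg ZMod.val h
    simp only at this
    rwa [ZMod.val_natCast_of_lt (by omega), ZMod.val_natCast_of_lt (by omega)] at this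
  have h4 := h1 (univ.filter fun s : ZMod (6 * u) => s.val < 2 * u)
  rw [h3] at h4
  have h5 : Fintype.card {x : Vx u // (ph f x).val < 2 * u} = 2 * u * c := by
    rw [← h4, Fintype.card_subtype]
    congr 1
    ext x
    simp
  rw [h5, ← h2]
  ring

end construct

/-- For every `u ≥ 1` there is a bipartite graph with `(6 u) ^ (192 u)` vertices on each side
which is the union of `2 ^ (3 u)` induced matchings, each covering a third of the vertices. -/
theorem exists_RS {u : ℕ} (hu : 1 ≤ u) : ∃ R : RS, Fintype.card R.V = (6 * u) ^ (192 * u) ∧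
    Fintype.card R.T = 2 ^ (3 * u) ∧ 3 * Fintype.card R.E = Fintype.card R.V := by
  classical
  have : NeZero (6 * u) := ⟨by omega⟩
  obtain ⟨c, hc⟩ := exists_words hu
  have hV : Fintype.card (Vx u) = (6 * u) ^ (192 * u) := by
    rw [Fintype.card_fun, ZMod.card, Fintype.card_prod, Fintype.card_fin, Fintype.card_fin]
    congr 1
    ring
  obtain ⟨μ, hμ⟩ : ∃ μ : ℕ, 3 * μ = (6 * u) ^ (192 * u) :=
    ⟨_, card_lt hu (c ⟨0, by positivity⟩)⟩
  have hE : ∀ j, Fintype.card {x : Vx u // (ph (c j) x).val < 2 * u} = μ := by
    intro j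
    have := card_lt hu (c j)
    omega
  let eq := fun j => (Fintype.equivFinOfCardEq (hE j)).symm
  have hsub : ∀ j e, (ph (c j) (eq j e).1).val < 2 * u := fun j e => (eq j e).2
  refine ⟨{ V := Vx u, T := Fin (2 ^ (3 * u)), E := Fin μ, a := fun j e => (eq j e).1,
            b := fun j e => (eq j e).1 + ind1 (c j), a_inj := ?_, b_inj := ?_, ind := ?_,
            nT := ⟨⟨0, by positivity⟩⟩ }, hV, ?_, ?_⟩
  · intro j e e' h
    exact (eq j).injective (Subtype.ext h)
  · intro j e e' h
    exact (eq j).injective (Subtype.ext (add_right_cancel h))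
  · intro j j' e e' e'' h1 h2
    by_contra hne
    rw [h1] at h2
    have h3 := congrArg (ph (c j)) h2
    rw [map_add, map_add, ph_ind1, ph_ind1, agree_self] at h3
    have h4 := hsub j e
    have h5 := hsub j e'
    have h6 := hc j j' (Ne.symm hne)
    set X := ph (c j) (eq j e).1
    set X' := ph (c j) (eq j e').1
    have h7 : ((X.val + agree (c j) (c j') : ℕ) : ZMod (6 * u)) = ((X'.val + 3 * u : ℕ) :
        ZMod (6 * u)) := by
      push_cast
      rw [ZMod.natCast_zmod_val, ZMod.natCast_zmod_val]
      push_cast at h3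
      exact h3
    have h8 := congrArg ZMod.val h7
    rw [ZMod.val_natCast_of_lt (by omega), ZMod.val_natCast_of_lt (by omega)] at h8
    omega
  · simp
  · simp only [Fintype.card_fin]
    rw [hμ, hV]

end Pool.Agent.TH693.MP
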