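import Pool.Agent.TH693.MP.Model
import Pool.Agent.TH693.MP.Gadget

/-!
# From streaming algorithms to protocols
-/

set_option autoImplicit false
set_option linter.unusedSectionVars false

open Finset

namespace Pool.Agent.TH693.MP

theorem read_append {n s : ℕ} (A : Alg n s) (j : ℕ) (L₁ L₂ : List (Sym2 (Fin n))) :
    ∀ (i : ℕ) (q : Fin (2 ^ s)),
      A.read j i q (L₁ ++ L₂) = A.read j (i + L₁.length) (A.read j i q L₁) L₂ := by
  induction L₁ with
  | nil => intro i q; rfl
  | cons e L ih =>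
    intro i q
    simp only [List.cons_append, Alg.read, ih, List.length_cons]
    rw [show i + 1 + L.length = i + (L.length + 1) by omega]

section proto

variable {n s : ℕ} {XX YY : Type} (A : Alg n s) (lx : XX → List (Sym2 (Fin n)))
  (ly : YY → List (Sym2 (Fin n))) (B : ℕ) (hB : ∀ x, (lx x).length < B)

/-- messages: the memory and the length of the first part of the stream -/
abbrev Msg (s B : ℕ) := Fin (2 ^ s) × Fin B

/-- the protocol that simulates `m + 1` passes of the algorithm -/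
def protoOf : (m : ℕ) → (j : ℕ) → Fin (2 ^ s) →
    Proto (Msg s B) (Finset (Sym2 (Fin n))) (2 * m + 1) XX YY
  | 0, j, q => (fun x => (A.read j 0 q (lx x), ⟨(lx x).length, hB x⟩),
      fun msg => (fun y => A.out (A.read j msg.2 msg.1 (ly y)) :
        Proto (Msg s B) (Finset (Sym2 (Fin n))) 0 YY XX))
  | m + 1, j, q => (fun x => (A.read j 0 q (lx x), ⟨(lx x).length, hB x⟩),
      fun msg => (fun y => (A.read j msg.2 msg.1 (ly y), msg.2),
        fun msg' => protoOf m (j + 1) msg'.1))

theorem protoOf_run (x : XX) (y : YY) (m : ℕ) : ∀ (j : ℕ),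
    (protoOf A lx ly B hB m j (A.after (lx x ++ ly y) j)).run (2 * m + 1) x y =
      A.output (j + (m + 1)) (lx x ++ ly y) := by
  induction m with
  | zero =>
    intro j
    change A.out (A.read j (lx x).length (A.read j 0 (A.after (lx x ++ ly y) j) (lx x)) (ly y)) =
      A.out (A.read j 0 (A.after (lx x ++ ly y) j) (lx x ++ ly y))
    rw [read_append, Nat.zero_add]
  | succ m ih =>
    intro j
    have h := ih (j + 1)
    have e : j + 1 + (m + 1) = j + (m + 1 + 1) := by omega
    rw [e] at h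
    rw [← h]
    change (protoOf A lx ly B hB m (j + 1)
      (A.read j (lx x).length (A.read j 0 (A.after (lx x ++ ly y) j) (lx x)) (ly y))).run
      (2 * m + 1) x y = (protoOf A lx ly B hB m (j + 1)
      (A.read j 0 (A.after (lx x ++ ly y) j) (lx x ++ ly y))).run (2 * m + 1) x y
    rw [read_append, Nat.zero_add]

end proto

section graph

variable {G : Gadget} {I : Type} [Fintype I] {n : ℕ} (φ : I × (G.U ⊕ G.V) ↪ Fin n)

/-- the vertex pair of the copy `i` for a left vertex and a right vertex -/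
def pr (t : I × G.U × G.V) : Sym2 (Fin n) := s(φ (t.1, Sum.inl t.2.1), φ (t.1, Sum.inr t.2.2))

theorem pr_inj : Function.Injective (pr φ) := by
  rintro ⟨i, u, v⟩ ⟨i', u', v'⟩ h
  simp only [pr, Sym2.eq_iff, EmbeddingLike.apply_eq_iff_eq, Prod.mk.injEq, Sum.inl.injEq,
    Sum.inr.injEq, reduceCtorEq, and_false, or_false] at h
  obtain ⟨⟨rfl, rfl⟩, -, rfl⟩ := h
  rfl

open Classical in
/-- edges given by a relation for every copy -/
noncomputable def edg (E : I → G.U → G.V → Prop) : Finset (Sym2 (Fin n)) :=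
  (univ.filter fun t : I × G.U × G.V => E t.1 t.2.1 t.2.2).image (pr φ)

theorem mem_edg {E : I → G.U → G.V → Prop} {e : Sym2 (Fin n)} :
    e ∈ edg φ E ↔ ∃ i u v, E i u v ∧ pr φ (i, u, v) = e := by
  classical
  unfold edg
  simp only [mem_image, mem_filter, mem_univ, true_and, Prod.exists]

theorem pr_mem_edg {E : I → G.U → G.V → Prop} {i : I} {u : G.U} {v : G.V} :
    pr φ (i, u, v) ∈ edg φ E ↔ E i u v := by
  rw [mem_edg]
  constructor
  · rintro ⟨i', u', v', h, h'⟩
    have := pr_inj φ h'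
    simp only [Prod.mk.injEq] at this
    obtain ⟨rfl, rfl, rfl⟩ := this
    exact h
  · intro h
    exact ⟨i, u, v, h, rfl⟩

/-- the graph given by the two inputs -/
noncomputable def gr (x : I → G.X) (y : I → G.Y) : SimpleGraph (Fin n) :=
  SimpleGraph.fromEdgeSet (↑(edg φ fun i => G.EX (x i)) ∪ ↑(edg φ fun i => G.EY (y i)))

theorem not_diag (t : I × G.U × G.V) : ¬ (pr φ t).IsDiag := by
  intro h
  simp only [pr, Sym2.mk_isDiag_iff, EmbeddingLike.apply_eq_iff_eq, Prod.mk.injEq,
    reduceCtorEq, and_false] at h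

theorem mem_gr {x : I → G.X} {y : I → G.Y} {e : Sym2 (Fin n)} :
    e ∈ (gr φ x y).edgeSet ↔ ∃ i u v, (G.EX (x i) u v ∨ G.EY (y i) u v) ∧ pr φ (i, u, v) = e := by
  unfold gr
  rw [SimpleGraph.edgeSet_fromEdgeSet]
  simp only [Set.mem_sdiff, Set.mem_union, mem_coe, mem_edg]
  constructor
  · rintro ⟨⟨i, u, v, h, h'⟩ | ⟨i, u, v, h, h'⟩, -⟩
    · exact ⟨i, u, v, Or.inl h, h'⟩
    · exact ⟨i, u, v, Or.inr h, h'⟩
  · rintro ⟨i, u, v, h | h, rfl⟩
    · exact ⟨Or.inl ⟨i, u, v, h, rfl⟩, not_diag φ _⟩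
    · exact ⟨Or.inr ⟨i, u, v, h, rfl⟩, not_diag φ _⟩

theorem isStream_gr (x : I → G.X) (y : I → G.Y) :
    IsStream (gr φ x y) ((edg φ fun i => G.EX (x i)).toList ++
      (edg φ fun i => G.EY (y i)).toList) := by
  constructor
  · rw [List.nodup_append']
    refine ⟨nodup_toList _, nodup_toList _, ?_⟩
    intro e he he'
    rw [mem_toList, mem_edg] at he he'
    obtain ⟨i, u, v, h, rfl⟩ := he
    obtain ⟨i', u', v', h', h''⟩ := he'
    have := pr_inj φ h''
    simp only [Prod.mk.injEq] at this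
    obtain ⟨rfl, rfl, rfl⟩ := this
    exact G.disj _ _ _ _ h h'
  · intro e
    rw [List.mem_append, mem_toList, mem_toList, mem_edg, mem_edg, mem_gr]
    constructor
    · rintro (⟨i, u, v, h, h'⟩ | ⟨i, u, v, h, h'⟩)
      · exact ⟨i, u, v, Or.inl h, h'⟩
      · exact ⟨i, u, v, Or.inr h, h'⟩
    · rintro ⟨i, u, v, h | h, h'⟩
      · exact Or.inl ⟨i, u, v, h, h'⟩
      · exact Or.inr ⟨i, u, v, h, h'⟩

theorem mem_pr {t : I × G.U × G.V} {w : Fin n} :
    w ∈ pr φ t ↔ w = φ (t.1, Sum.inl t.2.1) ∨ w = φ (t.1, Sum.inr t.2.2) := by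
  simp [pr]

/-- the maximum matching is large -/
theorem le_maxMatching (x : I → G.X) (y : I → G.Y) :
    Fintype.card I * G.M ≤ maxMatching (gr φ x y) := by
  classical
  choose O hO1 hO2 hO3 using fun i => G.full (x i) (y i)
  set T : Finset (I × G.U × G.V) := univ.filter fun t => t.2 ∈ O t.1 with hT
  have hTc : T.card = Fintype.card I * G.M := by
    have : T = univ.biUnion fun i => (O i).image fun p => (i, p) := by
      ext ⟨i, p⟩
      simp only [hT, mem_filter, mem_univ, true_and, mem_biUnion, mem_image, Prod.mk.injEq]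
      constructor
      · intro h
        exact ⟨i, p, h, rfl, rfl⟩
      · rintro ⟨i', p', h, rfl, rfl⟩
        exact h
    rw [this, card_biUnion]
    · rw [Finset.sum_congr rfl (g := fun _ => G.M)]
      · simp
      · intro i _
        rw [card_image_of_injective, hO3]
        intro p q h
        exact (Prod.mk.inj h).2
    · intro i _ i' _ hne
      rw [Function.onFun, disjoint_left]
      intro t ht ht'
      obtain ⟨p, -, rfl⟩ := mem_image.1 ht
      obtain ⟨p', -, h⟩ := mem_image.1 ht'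
      exact hne (Prod.mk.inj h).1.symm
  have hM : IsMatching (gr φ x y) (T.image (pr φ)) := by
    constructor
    · intro e he
      obtain ⟨⟨i, u, v⟩, ht, rfl⟩ := mem_image.1 he
      rw [mem_gr]
      exact ⟨i, u, v, hO2 i _ (mem_filter.1 ht).2, rfl⟩
    · intro e he e' he' w hw hw'
      obtain ⟨⟨i, u, v⟩, ht, rfl⟩ := mem_image.1 he
      obtain ⟨⟨i', u', v'⟩, ht', rfl⟩ := mem_image.1 he'
      have h1 := (mem_filter.1 ht).2
      have h2 := (mem_filter.1 ht').2
      simp only at h1 h2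
      rw [mem_pr] at hw hw'
      rcases hw with rfl | rfl <;> rcases hw' with h | h <;>
      simp only [EmbeddingLike.apply_eq_iff_eq, Prod.mk.injEq, Sum.inl.injEq, Sum.inr.injEq,
        reduceCtorEq, and_false] at h
      · obtain ⟨rfl, rfl⟩ := h
        have h3 := (hO1 i).1 _ h1 _ h2 rfl
        rw [h3]
      · obtain ⟨rfl, rfl⟩ := h
        have h3 := (hO1 i).2 _ h1 _ h2 rfl
        rw [h3]
  have hc : (T.image (pr φ)).card = Fintype.card I * G.M := by
    rw [card_image_of_injective _ (pr_inj φ), hTc]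
  rw [← hc]
  unfold maxMatching
  exact le_sup (f := Finset.card) (mem_filter.2 ⟨mem_univ _, hM⟩)

open Classical in
/-- the part of the output in the copy `i` -/
noncomputable def dec (O : Finset (Sym2 (Fin n))) (i : I) : Finset (G.U × G.V) :=
  univ.filter fun p => pr φ (i, p) ∈ O

theorem succ_of_good {x : I → G.X} {y : I → G.Y} {O : Finset (Sym2 (Fin n))} {ε θ : ℝ}
    (hε : ε * G.M ≤ θ) (hε1 : ε ≤ 1) (h : Good (1 - ε) (gr φ x y) O) :
    Succ G I θ x y (dec φ O) := by
  classical
  obtain ⟨⟨h1, h2⟩, h3⟩ := h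
  have hmem : ∀ i (p : G.U × G.V), p ∈ dec φ O i ↔ pr φ (i, p) ∈ O := by
    intro i p
    simp [dec]
  refine ⟨?_, ?_, ?_⟩
  · rintro i ⟨u, v⟩ he
    rw [hmem] at he
    have h4 := h1 _ he
    rw [mem_gr] at h4
    obtain ⟨i', u', v', h5, h6⟩ := h4
    have h7 := pr_inj φ h6
    simp only [Prod.mk.injEq] at h7
    obtain ⟨rfl, rfl, rfl⟩ := h7
    exact h5
  · intro i
    constructor
    · intro e he e' he' hh
      rw [hmem] at he he'
      have h4 := h2 _ he _ he' (φ (i, Sum.inl e.1)) ((mem_pr φ).2 (Or.inl rfl))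
        ((mem_pr φ).2 (Or.inl (by rw [hh])))
      exact (Prod.mk.inj (pr_inj φ h4)).2
    · intro e he e' he' hh
      rw [hmem] at he he'
      have h4 := h2 _ he _ he' (φ (i, Sum.inr e.2)) ((mem_pr φ).2 (Or.inr rfl))
        ((mem_pr φ).2 (Or.inr (by rw [hh])))
      exact (Prod.mk.inj (pr_inj φ h4)).2
  · have hcard : O.card ≤ ∑ i, (dec φ O i).card := by
      have h4 : O ⊆ univ.biUnion fun i => (dec φ O i).image fun p => pr φ (i, p) := by
        intro e he
        have h5 := h1 e he
        rw [mem_gr] at h5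
        obtain ⟨i, u, v, -, rfl⟩ := h5
        rw [mem_biUnion]
        exact ⟨i, mem_univ _, mem_image.2 ⟨(u, v), (hmem _ _).2 he, rfl⟩⟩
      refine (card_le_card h4).trans (card_biUnion_le.trans ?_)
      exact Finset.sum_le_sum fun i _ => card_image_le
    have h4 : (Fintype.card I : ℝ) * G.M ≤ maxMatching (gr φ x y) := by
      exact_mod_cast le_maxMatching φ x y
    have h5 : (O.card : ℝ) ≤ ∑ i, ((dec φ O i).card : ℝ) := by exact_mod_cast hcard
    have h6 : (1 - ε) * (Fintype.card I * G.M) ≤ (1 - ε) * maxMatching (gr φ x y) :=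
      mul_le_mul_of_nonneg_left h4 (by linarith)
    have h7 : (Fintype.card I : ℝ) * (ε * G.M) ≤ Fintype.card I * θ :=
      mul_le_mul_of_nonneg_left hε (Nat.cast_nonneg _)
    linarith

end graph

end Pool.Agent.TH693.MP
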