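import Pool.Agent.TH693.MP.Gadget

/-!
# Round elimination
-/

set_option autoImplicit false
set_option linter.unusedSectionVars false

open Finset

namespace Pool.Agent.TH693.MP

open Classical in
/-- restriction of a weight function to a fibre of a map -/
noncomputable def cnd {B Z : Type} (f : B → Z) (Q : B → ℝ) (z : Z) : B → ℝ :=
  fun b => if f b = z then Q b else 0

theorem cnd_nonneg {B Z : Type} {f : B → Z} {Q : B → ℝ} (h : ∀ b, 0 ≤ Q b) (z : Z) (b : B) :
    0 ≤ cnd f Q z b := by
  classical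
  unfold cnd
  split_ifs
  · exact h b
  · exact le_rfl

theorem mass_cnd {B Z : Type} [Fintype B] (f : B → Z) (Q : B → ℝ) (z : Z) :
    mass (cnd f Q z) = push f Q z := rfl

theorem cnd_self {B Z : Type} (f : B → Z) (Q : B → ℝ) (b : B) : cnd f Q (f b) b = Q b := by
  simp [cnd]

theorem sum_mass_cnd {B Z : Type} [Fintype B] [Fintype Z] (f : B → Z) (Q : B → ℝ) :
    ∑ z, mass (cnd f Q z) = mass Q := by
  simp only [mass_cnd]
  exact mass_push f Q

section chain

variable {I T B F : Type} [Fintype I] [DecidableEq I] [Fintype T] [DecidableEq T] [Fintype B]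
  [Fintype F]

/-- conditioning on the first components -/
theorem dfc_cond (ρ : B → I → T × F) (Q : B → ℝ) :
    dfc (push ρ Q) = dfc (push (fun b i => (ρ b i).1) Q) +
      ∑ J : I → T, dfc (push (fun b i => (ρ b i).2) (cnd (fun b i => (ρ b i).1) Q J)) := by
  classical
  let e : (I → T × F) ≃ (I → T) × (I → F) :=
    { toFun := fun z => (fun i => (z i).1, fun i => (z i).2)
      invFun := fun p i => (p.1 i, p.2 i)
      left_inv := fun z => rfl
      right_inv := fun p => rfl }
  rw [← dfc_push_equiv e, push_push, dfc_prod]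
  congr 1
  · congr 1
    funext J
    unfold push
    rw [Finset.sum_comm]
    refine Finset.sum_congr rfl fun b _ => ?_
    simp only [Function.comp, e, Equiv.coe_fn_mk, Prod.mk.injEq]
    by_cases h : (fun i => (ρ b i).1) = J <;> simp [h]
  · refine Finset.sum_congr rfl fun J _ => ?_
    congr 1
    funext x
    unfold push cnd
    refine Finset.sum_congr rfl fun b _ => ?_
    simp only [Function.comp, e, Equiv.coe_fn_mk, Prod.mk.injEq]
    by_cases h : (fun i => (ρ b i).1) = J <;> simp [h]

end chain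

section step

/-- the first message of a protocol -/
def Proto.msg {M Out A B : Type} {r : ℕ} (pr : Proto M Out (r + 1) A B) : A → M := Prod.fst pr

/-- the rest of the protocol after the first message -/
def Proto.next {M Out A B : Type} {r : ℕ} (pr : Proto M Out (r + 1) A B) :
    M → Proto M Out r B A := Prod.snd pr

open Classical in
/-- total weight of success -/
noncomputable def win (G : Gadget) (K A B Out : Type) [Fintype K] [Fintype A] [Fintype B] (θ : ℝ)
    (P : A → ℝ) (Q : B → ℝ) (π : A → K → G.X) (ρ : B → K → G.Y)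
    (dec : Out → K → Finset (G.U × G.V)) (o : A → B → Out) : ℝ :=
  ∑ a, ∑ b, (if Succ G K θ (π a) (ρ b) (dec (o a b)) then P a * Q b else 0)

theorem win_le (G : Gadget) (K A B Out : Type) [Fintype K] [Fintype A] [Fintype B] (θ : ℝ)
    (P : A → ℝ) (Q : B → ℝ) (hP : ∀ a, 0 ≤ P a) (hQ : ∀ b, 0 ≤ Q b)
    (π : A → K → G.X) (ρ : B → K → G.Y)
    (dec : Out → K → Finset (G.U × G.V)) (o : A → B → Out) :
    win G K A B Out θ P Q π ρ dec o ≤ mass P * mass Q := by
  classical
  unfold mass win
  rw [Finset.sum_mul_sum]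
  refine Finset.sum_le_sum fun a _ => Finset.sum_le_sum fun b _ => ?_
  split_ifs
  · exact le_rfl
  · exact mul_nonneg (hP _) (hQ _)

theorem Hard.soft {G : Gadget} {r N : ℕ} {θ α β σ p : ℝ} (h : Hard G r N θ α β σ p)
    (hα : 0 < α) (hβ : 0 < β) (hp : 0 ≤ p)
    (K A B M Out : Type) [Fintype K] [DecidableEq K] [Fintype A] [Fintype B] [Fintype M]
    (hK : N ≤ Fintype.card K) (hK0 : 0 < Fintype.card K)
    (hM : Real.log (Fintype.card M) ≤ σ * Fintype.card K)
    (P : A → ℝ) (Q : B → ℝ) (hP : ∀ a, 0 ≤ P a) (hQ : ∀ b, 0 ≤ Q b)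
    (π : A → K → G.X) (ρ : B → K → G.Y)
    (dec : Out → K → Finset (G.U × G.V)) (pr : Proto M Out r A B) :
    win G K A B Out θ P Q π ρ dec (fun a b => pr.run r a b) ≤
      p * (mass P * mass Q) + mass Q * (dfc (push π P) / (α * Fintype.card K)) +
        mass P * (dfc (push ρ Q) / (β * Fintype.card K)) := by
  rename_i _ dK _ _ _
  obtain rfl : dK = fun a b => Classical.propDecidable (a = b) := Subsingleton.elim _ _
  classical
  have hmP := mass_nonneg hP
  have hmQ := mass_nonneg hQ
  have hd1 := dfc_nonneg (push_nonneg (f := π) hP)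
  have hd2 := dfc_nonneg (push_nonneg (f := ρ) hQ)
  have hK1 : (0 : ℝ) < Fintype.card K := by exact_mod_cast hK0
  have t1 : 0 ≤ mass Q * (dfc (push π P) / (α * Fintype.card K)) := by positivity
  have t2 : 0 ≤ mass P * (dfc (push ρ Q) / (β * Fintype.card K)) := by positivity
  have t3 : 0 ≤ p * (mass P * mass Q) := by positivity
  have hS1 := win_le G K A B Out θ P Q hP hQ π ρ dec (fun a b => pr.run r a b)
  by_cases h1 : dfc (push π P) ≤ α * Fintype.card K * mass P
  · by_cases h2 : dfc (push ρ Q) ≤ β * Fintype.card K * mass Q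
    · have h3 := h K A B M Out hK hM P Q hP hQ π ρ h1 h2 dec pr
      refine le_trans h3 ?_
      linarith
    · push Not at h2
      have h3 : mass Q ≤ dfc (push ρ Q) / (β * Fintype.card K) := by
        rw [le_div_iff₀ (by positivity)]
        linarith
      have h4 := mul_le_mul_of_nonneg_left h3 hmP
      refine hS1.trans ?_
      linarith
  · push Not at h1
    have h3 : mass P ≤ dfc (push π P) / (α * Fintype.card K) := by
      rw [le_div_iff₀ (by positivity)]
      linarith
    have h4 := mul_le_mul_of_nonneg_left h3 hmQ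
    refine hS1.trans ?_
    linarith

theorem claim1 (R : RS) (G : Gadget) {r : ℕ} {θ θ' : ℝ} (hθ : θ ≤ θ' * Fintype.card R.E)
    (I A B M Out : Type) [Fintype I] [DecidableEq I] [Fintype A] [Fintype B] [Fintype M]
    (P : A → ℝ) (Q : B → ℝ) (hP : ∀ a, 0 ≤ P a) (hQ : ∀ b, 0 ≤ Q b)
    (π : A → I → R.T → R.E → G.Y) (ρ : B → I → R.T × (R.E → G.X))
    (dec : Out → I → Finset (LU R G × LV R G)) (msg : A → M) (nxt : M → Proto M Out r B A) :
    win (lift R G) I A B Out θ P Q π ρ dec (fun a b => (nxt (msg a)).run r b a) ≤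
    ∑ m, ∑ J : I → R.T, win G (I × R.E) B A Out θ' (cnd (fun b i => (ρ b i).1) Q J) (cnd msg P m)
      (fun b q => (ρ b q.1).2 q.2) (fun a q => π a q.1 (J q.1) q.2)
      (fun o q => restr R G (J q.1) q.2 (dec o q.1)) (fun b a => (nxt m).run r b a) := by
  classical
  set jj : B → I → R.T := fun b i => (ρ b i).1 with hjj
  have hnn : ∀ a b m J, 0 ≤ (if Succ G (I × R.E) θ' (fun q => (ρ b q.1).2 q.2)
      (fun q => π a q.1 (J q.1) q.2)
      (fun q => restr R G (J q.1) q.2 (dec ((nxt m).run r b a) q.1))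
      then cnd jj Q J b * cnd msg P m a else 0) := by
    intro a b m J
    split_ifs
    · exact mul_nonneg (cnd_nonneg hQ _ _) (cnd_nonneg hP _ _)
    · exact le_rfl
  have e1 : ∑ m, ∑ J : I → R.T, win G (I × R.E) B A Out θ' (cnd jj Q J)
      (cnd msg P m)
      (fun b q => (ρ b q.1).2 q.2) (fun a q => π a q.1 (J q.1) q.2)
      (fun o q => restr R G (J q.1) q.2 (dec o q.1)) (fun b a => (nxt m).run r b a) =
      ∑ a, ∑ b, ∑ m, ∑ J : I → R.T, (if Succ G (I × R.E) θ' (fun q => (ρ b q.1).2 q.2)
      (fun q => π a q.1 (J q.1) q.2)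
      (fun q => restr R G (J q.1) q.2 (dec ((nxt m).run r b a) q.1))
      then cnd jj Q J b * cnd msg P m a else 0) := by
    unfold win
    calc _ = ∑ m, ∑ J : I → R.T, ∑ a, ∑ b, (if Succ G (I × R.E) θ' (fun q => (ρ b q.1).2 q.2)
              (fun q => π a q.1 (J q.1) q.2)
              (fun q => restr R G (J q.1) q.2 (dec ((nxt m).run r b a) q.1))
              then cnd jj Q J b * cnd msg P m a else 0) :=
            Finset.sum_congr rfl fun m _ => Finset.sum_congr rfl fun J _ => Finset.sum_comm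
      _ = ∑ m, ∑ a, ∑ b, ∑ J : I → R.T, (if Succ G (I × R.E) θ' (fun q => (ρ b q.1).2 q.2)
              (fun q => π a q.1 (J q.1) q.2)
              (fun q => restr R G (J q.1) q.2 (dec ((nxt m).run r b a) q.1))
              then cnd jj Q J b * cnd msg P m a else 0) := by
            refine Finset.sum_congr rfl fun m _ => ?_
            rw [Finset.sum_comm]
            exact Finset.sum_congr rfl fun a _ => Finset.sum_comm
      _ = _ := by
            rw [Finset.sum_comm]
            exact Finset.sum_congr rfl fun a _ => Finset.sum_comm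
  rw [e1]
  unfold win
  refine Finset.sum_le_sum fun a _ => Finset.sum_le_sum fun b _ => ?_
  refine le_trans ?_ (Finset.single_le_sum (f := fun m => ∑ J : I → R.T,
    (if Succ G (I × R.E) θ' (fun q => (ρ b q.1).2 q.2)
      (fun q => π a q.1 (J q.1) q.2)
      (fun q => restr R G (J q.1) q.2 (dec ((nxt m).run r b a) q.1))
      then cnd jj Q J b * cnd msg P m a else 0))
    (fun m _ => Finset.sum_nonneg fun J _ => hnn a b m J) (Finset.mem_univ (msg a)))
  refine le_trans ?_ (Finset.single_le_sum (f := fun J : I → R.T =>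
    (if Succ G (I × R.E) θ' (fun q => (ρ b q.1).2 q.2)
      (fun q => π a q.1 (J q.1) q.2)
      (fun q => restr R G (J q.1) q.2 (dec ((nxt (msg a)).run r b a) q.1))
      then cnd jj Q J b * cnd msg P (msg a) a else 0)) (fun J _ => hnn a b _ J)
    (Finset.mem_univ (jj b)))
  by_cases hs : Succ (lift R G) I θ (π a) (ρ b) (dec ((nxt (msg a)).run r b a))
  · rw [if_pos hs]
    have h5 := succ_restrict R G hθ (π a) (ρ b) _ hs
    rw [if_pos h5, cnd_self, cnd_self, mul_comm]
  · rw [if_neg hs]
    exact hnn _ _ _ _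

theorem hard_lift_core (R : RS) (G : Gadget) {r N : ℕ} {θ θ' α β σ p α' β' σ' p' : ℝ}
    (h : Hard G r N θ' α' β' σ' p') (hN : 1 ≤ N) (hE : 1 ≤ Fintype.card R.E)
    (hθ : θ ≤ θ' * Fintype.card R.E) (hσ : σ ≤ σ' * Fintype.card R.E)
    (hα' : 0 < α') (hβ' : 0 < β') (hp' : 0 ≤ p')
    (hp : p' + β / (α' * Fintype.card R.E) +
      (2 * (Real.log (Fintype.card (R.E → G.Y)) + 1) * β + 2 / Fintype.card R.T * (α + σ)) /
        (β' * Fintype.card R.E) ≤ p)
    (I A B M Out : Type) [Fintype I] [DecidableEq I] [Fintype A] [Fintype B] [Fintype M]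
    (hI : N ≤ Fintype.card I) (hM : Real.log (Fintype.card M) ≤ σ * Fintype.card I)
    (P : A → ℝ) (Q : B → ℝ) (hP : ∀ a, 0 ≤ P a) (hQ : ∀ b, 0 ≤ Q b)
    (π : A → I → R.T → R.E → G.Y) (ρ : B → I → R.T × (R.E → G.X))
    (hπ : dfc (push π P) ≤ α * Fintype.card I * mass P)
    (hρ : dfc (push ρ Q) ≤ β * Fintype.card I * mass Q)
    (dec : Out → I → Finset (LU R G × LV R G)) (msg : A → M) (nxt : M → Proto M Out r B A) :
    win (lift R G) I A B Out θ P Q π ρ dec (fun a b => (nxt (msg a)).run r b a) ≤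
      p * (mass P * mass Q) := by
  have hK1 : (0 : ℝ) < Fintype.card I := by
    have : 0 < Fintype.card I := by omega
    exact_mod_cast this
  have hE1 : (0 : ℝ) < Fintype.card R.E := by
    have : 0 < Fintype.card R.E := by omega
    exact_mod_cast this
  have hK : (Fintype.card (I × R.E) : ℝ) = Fintype.card I * Fintype.card R.E := by
    rw [Fintype.card_prod, Nat.cast_mul]
  have hN' : N ≤ Fintype.card (I × R.E) := by
    rw [Fintype.card_prod]
    exact hI.trans (Nat.le_mul_of_pos_right _ hE)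
  have hK0' : 0 < Fintype.card (I × R.E) := by omega
  have hK0 : (0 : ℝ) < Fintype.card (I × R.E) := by exact_mod_cast hK0'
  have hM' : Real.log (Fintype.card M) ≤ σ' * Fintype.card (I × R.E) := by
    rw [hK]
    refine hM.trans ?_
    have := mul_le_mul_of_nonneg_right hσ hK1.le
    linarith
  obtain ⟨jj, hjj⟩ : ∃ jj : B → I → R.T, jj = fun b i => (ρ b i).1 := ⟨_, rfl⟩
  have c1 := claim1 R G hθ I A B M Out P Q hP hQ π ρ dec msg nxt
  rw [← hjj] at c1
  have c2 := fun (m : M) (J : I → R.T) => h.soft hα' hβ' hp' (I × R.E) B A M Out hN' hK0' hM'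
    (cnd jj Q J) (cnd msg P m) (cnd_nonneg hQ J) (cnd_nonneg hP m)
    (fun b q => (ρ b q.1).2 q.2) (fun a q => π a q.1 (J q.1) q.2)
    (fun o q => restr R G (J q.1) q.2 (dec o q.1)) (nxt m)
  have mW := sum_mass_cnd msg P
  have mV' := sum_mass_cnd jj Q
  have eX : ∀ J, dfc (push (fun b (q : I × R.E) => (ρ b q.1).2 q.2) (cnd jj Q J)) =
      dfc (push (fun b i => (ρ b i).2) (cnd jj Q J)) := by
    intro J
    rw [← dfc_push_equiv (Equiv.curry I R.E G.X), push_push]
    rfl
  have eY : ∀ m (J : I → R.T), dfc (push (fun a (q : I × R.E) => π a q.1 (J q.1) q.2)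
      (cnd msg P m)) = dfc (push (fun z i => z i (J i)) (push π (cnd msg P m))) := by
    intro m J
    rw [← dfc_push_equiv (Equiv.curry I R.E G.Y), push_push, push_push]
    rfl
  have hcond := dfc_cond (T := R.T) (F := R.E → G.X) ρ Q
  rw [← hjj] at hcond
  simp only [← eX] at hcond
  have hν0 : 0 ≤ dfc (push jj Q) := dfc_nonneg (push_nonneg hQ)
  have sX0 : 0 ≤ ∑ J, dfc (push (fun b (q : I × R.E) => (ρ b q.1).2 q.2) (cnd jj Q J)) :=
    Finset.sum_nonneg fun J _ => dfc_nonneg (push_nonneg (cnd_nonneg hQ J))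
  have sX : ∑ J, dfc (push (fun b (q : I × R.E) => (ρ b q.1).2 q.2) (cnd jj Q J)) ≤
    β * Fintype.card I * mass Q := by linarith
  have sν : dfc (push jj Q) ≤ β * Fintype.card I * mass Q := by linarith
  have hmP := mass_nonneg hP
  have hmQ := mass_nonneg hQ
  have sP : ∑ m, dfc (push π (cnd msg P m)) ≤ (α + σ) * Fintype.card I * mass P := by
    have h1 := dfc_msg (fun m => push π (cnd msg P m)) (fun m z => push_nonneg (cnd_nonneg hP m) z)
    have h2 : (fun z => ∑ m, push π (cnd msg P m) z) = push π P := by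
      classical
      funext z
      unfold push cnd
      rw [Finset.sum_comm]
      refine Finset.sum_congr rfl fun a _ => ?_
      by_cases hz : π a = z <;> simp [hz]
    rw [h2, mass_push] at h1
    have := mul_le_mul_of_nonneg_left hM hmP
    refine h1.trans ?_
    linarith
  have sY : ∀ m, ∑ J : I → R.T, mass (cnd jj Q J) *
      dfc (push (fun a (q : I × R.E) => π a q.1 (J q.1) q.2) (cnd msg P m)) ≤
      2 * (mass (cnd msg P m) * (Real.log (Fintype.card (R.E → G.Y)) + 1)) * dfc (push jj Q) +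
        2 * (mass Q / Fintype.card R.T) * dfc (push π (cnd msg P m)) := by
    intro m
    have h1 := dfc_avg (I := I) (T := R.T) (B := R.E → G.Y) (push π (cnd msg P m))
      (push_nonneg (cnd_nonneg hP m)) (push jj Q) (push_nonneg hQ)
    rw [mass_push, mass_push] at h1
    refine le_trans (le_of_eq ?_) h1
    refine Finset.sum_congr rfl fun J _ => ?_
    rw [mass_cnd, eY]
  obtain ⟨L, hL⟩ : ∃ L : ℝ, L = Real.log (Fintype.card (R.E → G.Y)) := ⟨_, rfl⟩
  have hL0 : 0 ≤ L := by rw [hL]; exact Real.log_natCast_nonneg _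
  rw [← hL] at hp
  simp only [← hL] at sY
  have hT0 : (0 : ℝ) < Fintype.card R.T := by exact_mod_cast Fintype.card_pos
  have sYY : ∑ m, ∑ J : I → R.T, mass (cnd jj Q J) *
      dfc (push (fun a (q : I × R.E) => π a q.1 (J q.1) q.2) (cnd msg P m)) ≤
      (2 * (L + 1) * β + 2 / Fintype.card R.T * (α + σ)) *
        Fintype.card I * (mass P * mass Q) := by
    calc ∑ m, ∑ J : I → R.T, mass (cnd jj Q J) *
      dfc (push (fun a (q : I × R.E) => π a q.1 (J q.1) q.2) (cnd msg P m))
        ≤ ∑ m, (2 * (mass (cnd msg P m) * (L + 1)) * dfc (push jj Q) +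
          2 * (mass Q / Fintype.card R.T) * dfc (push π (cnd msg P m))) :=
          Finset.sum_le_sum fun m _ => sY m
      _ = 2 * (L + 1) * mass P * dfc (push jj Q) +
          2 * (mass Q / Fintype.card R.T) * ∑ m, dfc (push π (cnd msg P m)) := by
          rw [Finset.sum_add_distrib, ← Finset.mul_sum, ← mW]
          congr 1
          rw [Finset.mul_sum, Finset.sum_mul]
          refine Finset.sum_congr rfl fun m _ => ?_
          ring
      _ ≤ 2 * (L + 1) * mass P * (β * Fintype.card I * mass Q) +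
          2 * (mass Q / Fintype.card R.T) * ((α + σ) * Fintype.card I * mass P) := by
          refine add_le_add ?_ ?_
          · exact mul_le_mul_of_nonneg_left sν (by positivity)
          · exact mul_le_mul_of_nonneg_left sP (by positivity)
      _ = _ := by ring
  -- conclusion
  refine c1.trans ((Finset.sum_le_sum fun m _ => Finset.sum_le_sum fun J _ => c2 m J).trans ?_)
  obtain ⟨dX, hdX⟩ : ∃ dX : (I → R.T) → ℝ, dX = fun J =>
    dfc (push (fun b (q : I × R.E) => (ρ b q.1).2 q.2) (cnd jj Q J)) := ⟨_, rfl⟩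
  obtain ⟨dY, hdY⟩ : ∃ dY : M → (I → R.T) → ℝ, dY = fun m J =>
    dfc (push (fun a (q : I × R.E) => π a q.1 (J q.1) q.2) (cnd msg P m)) := ⟨_, rfl⟩
  have hdX' : ∀ J, dfc (push (fun b (q : I × R.E) => (ρ b q.1).2 q.2) (cnd jj Q J)) = dX J :=
    fun J => by rw [hdX]
  have hdY' : ∀ m (J : I → R.T), dfc (push (fun a (q : I × R.E) => π a q.1 (J q.1) q.2)
    (cnd msg P m)) = dY m J := fun m J => by rw [hdY]
  simp only [hdX'] at sX ⊢
  simp only [hdY'] at sYY ⊢
  have e1 : ∑ m, ∑ J, (p' * (mass (cnd jj Q J) * mass (cnd msg P m)) +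
      mass (cnd msg P m) * (dX J / (α' * Fintype.card (I × R.E))) +
      mass (cnd jj Q J) * (dY m J / (β' * Fintype.card (I × R.E)))) =
      p' * (mass P * mass Q) +
      mass P * ((∑ J, dX J) / (α' * Fintype.card (I × R.E))) +
      (∑ m, ∑ J, mass (cnd jj Q J) * dY m J) / (β' * Fintype.card (I × R.E)) := by
    simp only [Finset.sum_add_distrib]
    congr 1
    · congr 1
      · rw [← mW, ← mV', Finset.sum_mul_sum, Finset.mul_sum]
        refine Finset.sum_congr rfl fun m _ => ?_
        rw [Finset.mul_sum]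
        refine Finset.sum_congr rfl fun J _ => ?_
        ring
      · rw [← mW, Finset.sum_mul]
        refine Finset.sum_congr rfl fun m _ => ?_
        rw [Finset.sum_div, Finset.mul_sum]
    · rw [Finset.sum_div]
      refine Finset.sum_congr rfl fun m _ => ?_
      rw [Finset.sum_div]
      refine Finset.sum_congr rfl fun J _ => ?_
      ring
  refine (le_of_eq e1).trans ?_
  have e2 : mass P * ((∑ J, dX J) / (α' * Fintype.card (I × R.E))) ≤
      β / (α' * Fintype.card R.E) * (mass P * mass Q) := by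
    have : (∑ J, dX J) / (α' * Fintype.card (I × R.E)) ≤
        β / (α' * Fintype.card R.E) * mass Q := by
      rw [div_le_iff₀ (by positivity), hK]
      refine sX.trans (le_of_eq ?_)
      field_simp
    calc _ ≤ mass P * (β / (α' * Fintype.card R.E) * mass Q) :=
          mul_le_mul_of_nonneg_left this hmP
      _ = _ := by ring
  have e3 : (∑ m, ∑ J, mass (cnd jj Q J) * dY m J) / (β' * Fintype.card (I × R.E)) ≤
      (2 * (L + 1) * β + 2 / Fintype.card R.T * (α + σ)) /
        (β' * Fintype.card R.E) * (mass P * mass Q) := by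
    rw [div_le_iff₀ (by positivity), hK]
    refine sYY.trans (le_of_eq ?_)
    field_simp
  have e4 := mul_le_mul_of_nonneg_right hp (mul_nonneg hmP hmQ)
  have e5 : (p' + β / (α' * Fintype.card R.E) +
      (2 * (L + 1) * β + 2 / Fintype.card R.T * (α + σ)) / (β' * Fintype.card R.E)) *
      (mass P * mass Q) = p' * (mass P * mass Q) + β / (α' * Fintype.card R.E) *
      (mass P * mass Q) + (2 * (L + 1) * β + 2 / Fintype.card R.T * (α + σ)) /
        (β' * Fintype.card R.E) * (mass P * mass Q) := by ring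
  linarith

theorem hard_lift (R : RS) (G : Gadget) {r N : ℕ} {θ θ' α β σ p α' β' σ' p' : ℝ}
    (h : Hard G r N θ' α' β' σ' p') (hN : 1 ≤ N) (hE : 1 ≤ Fintype.card R.E)
    (hθ : θ ≤ θ' * Fintype.card R.E) (hσ : σ ≤ σ' * Fintype.card R.E)
    (hα' : 0 < α') (hβ' : 0 < β') (hp' : 0 ≤ p')
    (hp : p' + β / (α' * Fintype.card R.E) +
      (2 * (Real.log (Fintype.card (R.E → G.Y)) + 1) * β + 2 / Fintype.card R.T * (α + σ)) /
        (β' * Fintype.card R.E) ≤ p) :
    Hard (lift R G) (r + 1) N θ α β σ p := by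
  intro I A B M Out _ _ _ _ hI hM P Q hP hQ π ρ hπ hρ dec pr
  classical
  exact hard_lift_core R G h hN hE hθ hσ hα' hβ' hp' hp I A B M Out hI hM P Q hP hQ π ρ hπ hρ
    dec pr.msg pr.next

end step

end Pool.Agent.TH693.MP
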